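import Mathlib

/-! Products of elements of a number field which are squares at a finite place. -/

set_option autoImplicit false

open NumberField IsDedekindDomain

namespace Pool.Agent.H.MP_ac3185_nt.KT

universe u

variable {K : Type u} [Field K] [NumberField K]

/-- A unit at `v` is an integer outside `v` up to squares. -/
theorem unit_rep (v : HeightOneSpectrum (𝓞 K)) (u : K) (hu : v.valuation K u = 1) :
    ∃ (r : 𝓞 K) (y : K), r ∉ v.asIdeal ∧ y ≠ 0 ∧ u = r * y ^ 2 := by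
  obtain ⟨n, ⟨d, hd⟩, hnd⟩ := v.exists_primeCompl_mul_eq_of_integer u hu.le
  have hd' : d ∉ v.asIdeal := hd
  have hd0 : (algebraMap (𝓞 K) K d) ≠ 0 := by
    intro h
    apply hd'
    rw [(FaithfulSMul.algebraMap_eq_zero_iff (𝓞 K) K).1 h]
    exact zero_mem _
  have hn : n ∉ v.asIdeal := by
    have h1 := congrArg (v.valuation K) hnd
    rw [map_mul, hu, one_mul, HeightOneSpectrum.valuation_of_algebraMap,
      HeightOneSpectrum.valuation_of_algebraMap,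
      (v.intValuation_eq_one_iff_mem_primeCompl d).2 hd] at h1
    exact (v.intValuation_eq_one_iff_mem_primeCompl n).1 h1.symm
  refine ⟨n * d, (algebraMap (𝓞 K) K d)⁻¹, ?_, inv_ne_zero hd0, ?_⟩
  · intro h
    rcases v.isPrime.mem_or_mem h with h | h
    · exact hn h
    · exact hd' h
  · have h2 : u = algebraMap (𝓞 K) K n * (algebraMap (𝓞 K) K d)⁻¹ := by
      rw [← hnd, mul_assoc, mul_inv_cancel₀ hd0, mul_one]
    have h3 : ((n * d : 𝓞 K) : K) = algebraMap (𝓞 K) K n * algebraMap (𝓞 K) K d := map_mul _ _ _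
    rw [h2, h3]
    field_simp

/-- Every nonzero element of `K` is a power `ϖ ^ e`, with `e = 0` or `e = 1`, times an integer
outside `v`, up to squares. -/
theorem exists_rep (v : HeightOneSpectrum (𝓞 K)) : ∃ ϖ : K, ϖ ≠ 0 ∧ ∀ x : K, x ≠ 0 →
    ∃ (e : Fin 2) (r : 𝓞 K) (y : K), r ∉ v.asIdeal ∧ y ≠ 0 ∧ x = ϖ ^ (e : ℕ) * r * y ^ 2 := by
  obtain ⟨ϖ, hϖ⟩ := v.valuation_exists_uniformizer K
  have hϖ0 : ϖ ≠ 0 := by
    rintro rfl
    rw [map_zero] at hϖ
    exact WithZero.exp_ne_zero hϖ.symm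
  refine ⟨ϖ, hϖ0, fun x hx => ?_⟩
  have hvx : v.valuation K x ≠ 0 := (Valuation.ne_zero_iff _).2 hx
  obtain ⟨n, hn⟩ : ∃ n : ℤ, v.valuation K x = WithZero.exp n :=
    ⟨WithZero.log (v.valuation K x), (WithZero.exp_log hvx).symm⟩
  obtain ⟨m, e, hme⟩ : ∃ (m : ℤ) (e : Fin 2), -n = 2 * m + ((e : ℕ) : ℤ) := by
    refine ⟨(-n) / 2, ⟨((-n) % 2).toNat, by omega⟩, ?_⟩
    show -n = 2 * ((-n) / 2) + ((((-n) % 2).toNat : ℕ) : ℤ)
    omega
  have hu : v.valuation K (x * ϖ ^ n) = 1 := by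
    rw [map_mul, map_zpow₀, hn, hϖ, ← WithZero.exp_zsmul, ← WithZero.exp_add, ← WithZero.exp_zero]
    congr 1
    simp
  obtain ⟨r, y, hr, hy, hxy⟩ := unit_rep v _ hu
  refine ⟨e, r, y * ϖ ^ m, hr, mul_ne_zero hy (zpow_ne_zero _ hϖ0), ?_⟩
  have h1 : x = (x * ϖ ^ n) * ϖ ^ (-n) := by
    rw [mul_assoc, ← zpow_add₀ hϖ0, add_neg_cancel, zpow_zero, mul_one]
  rw [h1, hxy, hme, zpow_add₀ hϖ0, zpow_mul, zpow_natCast, mul_pow, ← zpow_natCast (ϖ ^ m),
    ← zpow_mul, ← zpow_mul, mul_comm (2 : ℤ) m]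
  push_cast
  ring

/-- Up to squares `z` is an algebraic integer of one of two explicit forms, which are squares in the
completion of `K` at `v`. -/
def LocSq (v : HeightOneSpectrum (𝓞 K)) (z : K) : Prop :=
  ∃ (c B : 𝓞 K) (y : K), y ≠ 0 ∧ z = c * y ^ 2 ∧ B ∉ v.asIdeal ∧
    (((2 : 𝓞 K) ∉ v.asIdeal ∧ c - B ^ 2 ∈ v.asIdeal) ∨ ∃ t ∈ v.asIdeal, c = B ^ 2 + 4 * t)

omit [NumberField K] in
/-- The product of two elements with the same classes. -/
theorem locSq_mul (v : HeightOneSpectrum (𝓞 K)) (ϖ : K) (hϖ : ϖ ≠ 0) (e : Fin 2) (r r' : 𝓞 K)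
    (y y' : K) (hy : y ≠ 0) (hy' : y' ≠ 0) (hr : LocSq v ((r * r' : 𝓞 K) : K)) :
    LocSq v ((ϖ ^ (e : ℕ) * r * y ^ 2) * (ϖ ^ (e : ℕ) * r' * y' ^ 2)) := by
  obtain ⟨c, B, z, hz, hc, hB, h⟩ := hr
  refine ⟨c, B, z * ϖ ^ (e : ℕ) * y * y', by positivity, ?_, hB, h⟩
  have h3 : ((r * r' : 𝓞 K) : K) = (r : K) * (r' : K) := map_mul _ _ _
  rw [h3] at hc
  calc (ϖ ^ (e : ℕ) * r * y ^ 2) * (ϖ ^ (e : ℕ) * r' * y' ^ 2) =
      ((r : K) * (r' : K)) * (ϖ ^ (e : ℕ) * y * y') ^ 2 := by ring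
    _ = c * (z * ϖ ^ (e : ℕ) * y * y') ^ 2 := by rw [hc]; ring

/-- The classes of the integers outside an even place. -/
theorem classes_even (v : HeightOneSpectrum (𝓞 K)) (h2 : (2 : 𝓞 K) ∈ v.asIdeal) :
    ∃ (C : Type u) (_ : Finite C) (κ : 𝓞 K → C),
      Nat.card C ≤ 2 ^ (3 * Module.finrank ℚ K) ∧ ∀ r r' : 𝓞 K, r ∉ v.asIdeal → r' ∉ v.asIdeal →
        κ r = κ r' → LocSq v ((r * r' : 𝓞 K) : K) := by
  set I : Ideal (𝓞 K) := Ideal.span {(4 : 𝓞 K)} * v.asIdeal with hI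
  have h4 : (4 : 𝓞 K) ≠ 0 := by norm_num
  have hI0 : I ≠ ⊥ := by
    rw [hI]
    refine mul_ne_zero ?_ v.ne_bot
    rw [Ne, Ideal.zero_eq_bot, Ideal.span_singleton_eq_bot]
    exact h4
  have hnorm : ∀ m : ℕ, Ideal.absNorm (Ideal.span {((m : ℕ) : 𝓞 K)}) = m ^ Module.finrank ℚ K := by
    intro m
    rw [Ideal.absNorm_span_singleton, ← RingOfIntegers.rank K, ← map_natCast (algebraMap ℤ (𝓞 K)) m,
      Algebra.norm_algebraMap]
    simp [Int.natAbs_pow]
  have hv : Ideal.absNorm v.asIdeal ≤ 2 ^ Module.finrank ℚ K := by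
    have h1 : Ideal.absNorm v.asIdeal ∣ Ideal.absNorm (Ideal.span {((2 : ℕ) : 𝓞 K)}) := by
      apply Ideal.absNorm_dvd_absNorm_of_le
      rw [Ideal.span_singleton_le_iff_mem]
      exact_mod_cast h2
    rw [hnorm] at h1
    exact Nat.le_of_dvd (by positivity) h1
  refine ⟨𝓞 K ⧸ I, ?_, Ideal.Quotient.mk I, ?_, ?_⟩
  · exact Ideal.finiteQuotientOfFreeOfNeBot I hI0
  · have h5 : Nat.card (𝓞 K ⧸ I) = Ideal.absNorm I := by
      rw [Ideal.absNorm_apply, Submodule.cardQuot_apply]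
    rw [h5, hI, map_mul]
    have h6 := hnorm 4
    rw [Nat.cast_ofNat] at h6
    rw [h6]
    calc 4 ^ Module.finrank ℚ K * Ideal.absNorm v.asIdeal
        ≤ 4 ^ Module.finrank ℚ K * 2 ^ Module.finrank ℚ K := Nat.mul_le_mul_left _ hv
      _ = 2 ^ (3 * Module.finrank ℚ K) := by
        rw [← mul_pow, pow_mul]
        norm_num
  · intro r r' _ hr' h
    rw [Ideal.Quotient.eq, hI, Ideal.mem_span_singleton_mul] at h
    obtain ⟨t, ht, h⟩ := h
    refine ⟨r * r', r', 1, one_ne_zero, by simp, hr', Or.inr ⟨t * r', Ideal.mul_mem_right _ _ ht, ?_⟩⟩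
    have : r = r' + 4 * t := by rw [h]; ring
    rw [this]
    ring

/-- The classes of the integers outside an odd place. -/
theorem classes_odd (v : HeightOneSpectrum (𝓞 K)) (h2 : (2 : 𝓞 K) ∉ v.asIdeal) :
    ∃ (C : Type u) (_ : Finite C) (κ : 𝓞 K → C),
      Nat.card C ≤ 2 ^ (3 * Module.finrank ℚ K) ∧ ∀ r r' : 𝓞 K, r ∉ v.asIdeal → r' ∉ v.asIdeal →
        κ r = κ r' → LocSq v ((r * r' : 𝓞 K) : K) := by
  classical
  have hmax : v.asIdeal.IsMaximal := v.isMaximal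
  let _ : Field (𝓞 K ⧸ v.asIdeal) := Ideal.Quotient.field v.asIdeal
  have _ : Finite (𝓞 K ⧸ v.asIdeal) := Ideal.finiteQuotientOfFreeOfNeBot v.asIdeal v.ne_bot
  let _ : Fintype (𝓞 K ⧸ v.asIdeal) := Fintype.ofFinite _
  refine ⟨ULift Bool, inferInstance,
    fun r => ULift.up (decide (IsSquare (Ideal.Quotient.mk v.asIdeal r))), ?_, ?_⟩
  · have h1 : Nat.card (ULift.{u} Bool) = 2 := by
      rw [Nat.card_eq_fintype_card, Fintype.card_ulift, Fintype.card_bool]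
    rw [h1]
    have h3 : 1 ≤ Module.finrank ℚ K := Module.finrank_pos
    calc 2 = 2 ^ 1 := rfl
      _ ≤ _ := Nat.pow_le_pow_right (by norm_num) (by omega)
  · intro r r' hr hr' h
    have h1 : IsSquare (Ideal.Quotient.mk v.asIdeal r) ↔ IsSquare (Ideal.Quotient.mk v.asIdeal r') := by
      have := ULift.up_injective h
      simpa using this
    have hr0 : Ideal.Quotient.mk v.asIdeal r ≠ 0 := fun h0 => hr (Ideal.Quotient.eq_zero_iff_mem.1 h0)
    have hr0' : Ideal.Quotient.mk v.asIdeal r' ≠ 0 :=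
      fun h0 => hr' (Ideal.Quotient.eq_zero_iff_mem.1 h0)
    have hsq : IsSquare (Ideal.Quotient.mk v.asIdeal (r * r')) := by
      rw [map_mul]
      by_cases hs : IsSquare (Ideal.Quotient.mk v.asIdeal r)
      · exact hs.mul (h1.1 hs)
      · have hs' : ¬ IsSquare (Ideal.Quotient.mk v.asIdeal r') := fun h0 => hs (h1.2 h0)
        rw [← quadraticChar_one_iff_isSquare (mul_ne_zero hr0 hr0'), map_mul,
          quadraticChar_neg_one_iff_not_isSquare.2 hs, quadraticChar_neg_one_iff_not_isSquare.2 hs']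
        norm_num
    obtain ⟨q, hq⟩ := hsq
    obtain ⟨B, rfl⟩ := Ideal.Quotient.mk_surjective q
    have hB : B ∉ v.asIdeal := by
      intro h0
      rw [Ideal.Quotient.eq_zero_iff_mem.2 h0, mul_zero, map_mul] at hq
      exact mul_ne_zero hr0 hr0' hq
    refine ⟨r * r', B, 1, one_ne_zero, by simp, hB, Or.inl ⟨h2, ?_⟩⟩
    rw [← map_mul, Ideal.Quotient.eq, ← sq] at hq
    exact hq

/-- The classes of the nonzero elements of `K` at a place. -/
theorem classes (v : HeightOneSpectrum (𝓞 K)) :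
    ∃ (C : Type u) (_ : Finite C) (κ : K → C),
      Nat.card C ≤ 2 * 2 ^ (3 * Module.finrank ℚ K) ∧ ∀ x x' : K, x ≠ 0 → x' ≠ 0 →
        κ x = κ x' → LocSq v (x * x') := by
  classical
  obtain ⟨C, hC, κ, hcard, hκ⟩ : ∃ (C : Type u) (_ : Finite C) (κ : 𝓞 K → C),
      Nat.card C ≤ 2 ^ (3 * Module.finrank ℚ K) ∧ ∀ r r' : 𝓞 K, r ∉ v.asIdeal → r' ∉ v.asIdeal →
        κ r = κ r' → LocSq v ((r * r' : 𝓞 K) : K) := by
    by_cases h2 : (2 : 𝓞 K) ∈ v.asIdeal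
    · exact classes_even v h2
    · exact classes_odd v h2
  obtain ⟨ϖ, hϖ, hrep⟩ := exists_rep v
  choose! e r y hr hy hx using hrep
  refine ⟨Fin 2 × C, inferInstance, fun x => (e x, κ (r x)), ?_, ?_⟩
  · rw [Nat.card_prod, Nat.card_fin]
    exact Nat.mul_le_mul_left _ hcard
  · intro x x' h0 h0' h
    rw [Prod.mk.injEq] at h
    have h3 := locSq_mul v ϖ hϖ (e x) (r x) (r x') (y x) (y x') (hy x h0) (hy x' h0')
      (hκ _ _ (hr x h0) (hr x' h0') h.2)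
    rw [← hx x h0] at h3
    rw [h.1, ← hx x' h0'] at h3
    exact h3

omit [NumberField K] in
theorem prod_mul_prod {k : ℕ} (x : Fin k → K) (J J' : Finset (Fin k)) :
    (∏ i ∈ J, x i) * ∏ i ∈ J', x i = (∏ i ∈ symmDiff J J', x i) * (∏ i ∈ J ∩ J', x i) ^ 2 := by
  classical
  have h1 : ∏ i ∈ J, x i = (∏ i ∈ J \ J', x i) * ∏ i ∈ J ∩ J', x i := by
    rw [← Finset.prod_union (Finset.disjoint_sdiff_inter J J'), Finset.sdiff_union_inter]
  have h2 : ∏ i ∈ J', x i = (∏ i ∈ J' \ J, x i) * ∏ i ∈ J ∩ J', x i := by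
    rw [Finset.inter_comm, ← Finset.prod_union (Finset.disjoint_sdiff_inter J' J),
      Finset.sdiff_union_inter]
  have h3 : ∏ i ∈ symmDiff J J', x i = (∏ i ∈ J \ J', x i) * ∏ i ∈ J' \ J, x i := by
    rw [← Finset.prod_union disjoint_sdiff_sdiff]
    rfl
  rw [h1, h2, h3]
  ring

/-- Among `3 n + 2` nonzero elements there are some, at least one, whose product is a square at
the place `v`. -/
theorem exists_locSq (v : HeightOneSpectrum (𝓞 K)) {k : ℕ} (hk : 3 * Module.finrank ℚ K + 2 ≤ k)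
    (x : Fin k → K) (hx : ∀ i, x i ≠ 0) :
    ∃ T : Finset (Fin k), T.Nonempty ∧ LocSq v (∏ i ∈ T, x i) := by
  classical
  obtain ⟨C, hC, κ, hcard, hκ⟩ := classes v
  have hne : ∀ J : Finset (Fin k), (∏ i ∈ J, x i) ≠ 0 := fun J =>
    Finset.prod_ne_zero_iff.2 fun i _ => hx i
  obtain ⟨J, J', hJ, hJJ⟩ : ∃ J J' : Finset (Fin k), J ≠ J' ∧
      κ (∏ i ∈ J, x i) = κ (∏ i ∈ J', x i) := by
    by_contra h
    push Not at h
    have hinj : Function.Injective fun J : Finset (Fin k) => κ (∏ i ∈ J, x i) := by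
      intro J J' h0
      by_contra h1
      exact h J J' h1 h0
    have h1 := Nat.card_le_card_of_injective _ hinj
    rw [Nat.card_eq_fintype_card, Fintype.card_finset, Fintype.card_fin] at h1
    have h2 : 2 * 2 ^ (3 * Module.finrank ℚ K) < 2 ^ k := by
      rw [← pow_succ']
      exact Nat.pow_lt_pow_right (by norm_num) (by omega)
    omega
  refine ⟨symmDiff J J', ?_, ?_⟩
  · rw [Finset.nonempty_iff_ne_empty]
    intro h
    exact hJ (symmDiff_eq_bot.1 h)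
  · obtain ⟨c, B, y, hy, hc, hB, h⟩ := hκ _ _ (hne J) (hne J') hJJ
    refine ⟨c, B, y / ∏ i ∈ J ∩ J', x i, div_ne_zero hy (hne _), ?_, hB, h⟩
    rw [prod_mul_prod] at hc
    rw [div_pow, ← mul_div_assoc, ← hc, mul_div_cancel_right₀ _ (pow_ne_zero 2 (hne _))]

end Pool.Agent.H.MP_ac3185_nt.KT
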