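import Pool.Agent.H.MP_ac3185_nt.helper16.K.Decomp
import Pool.Agent.H.MP_ac3185_nt.helper16.K.Local
import Pool.Agent.H.MP_ac3185_nt.O42.Rank
import Pool.Agent.H.MP_ac3185_nt.U.Root

/-! The global root number over a Galois extension which contains many independent square roots. -/

set_option autoImplicit false

open CategoryTheory AlgebraicGeometry NumberField IsDedekindDomain
open scoped MonObj

namespace Pool.Agent.H.MP_ac3185_nt.KT

open OE

universe u

variable {K : Type u} [Field K] [NumberField K]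

/-- The decomposition groups above `v` fix the square roots of the elements which are squares at
`v`. -/
theorem fix_locSq (v : HeightOneSpectrum (𝓞 K)) (z : K) (hz : LocSq v z)
    (𝔓 : Ideal (𝓞 (AlgebraicClosure K))) (h𝔓 : Above 𝔓 v)
    (σ : AlgebraicClosure K ≃ₐ[K] AlgebraicClosure K) (hσ : σ ∈ decompGrp K 𝔓)
    (s : AlgebraicClosure K) (hs : s ^ 2 = algebraMap K (AlgebraicClosure K) z) : σ s = s := by
  obtain ⟨c, B, y, hy, hc, hB, h⟩ := hz
  have hy0 : algebraMap K (AlgebraicClosure K) y ≠ 0 := by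
    rw [Ne, map_eq_zero]
    exact hy
  have hx : (s / algebraMap K (AlgebraicClosure K) y) ^ 2 =
      algebraMap K (AlgebraicClosure K) (c : K) := by
    rw [div_pow, hs, hc, map_mul, map_pow, mul_div_cancel_right₀ _ (pow_ne_zero 2 hy0)]
  have h1 : σ (s / algebraMap K (AlgebraicClosure K) y) = s / algebraMap K (AlgebraicClosure K) y := by
    rcases h with ⟨h2, h3⟩ | ⟨t, ht, h3⟩
    · exact fix_odd v h2 c B hB h3 𝔓 h𝔓 σ hσ _ hx
    · exact fix_even v c B t hB ht h3 𝔓 h𝔓 σ hσ _ hx
  rw [map_div₀, AlgEquiv.commutes] at h1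
  exact (div_left_inj' hy0).1 h1

/-- The number of the places of `F` above `v` is even, if the decomposition groups above `v` fix a
quadratic extension of `K` in `F`. -/
theorem even_placesQ (F Q : IntermediateField K (AlgebraicClosure K))
    [FiniteDimensional K F] [IsGalois K F] (hQ : Q ≤ F) (h2 : Module.finrank K Q = 2)
    (v : HeightOneSpectrum (𝓞 K))
    (hfix : ∀ 𝔓 : Ideal (𝓞 (AlgebraicClosure K)), Above 𝔓 v →
      ∀ σ ∈ decompGrp K 𝔓, σ ∈ Q.fixingSubgroup) :
    Even (Nat.card {w : HeightOneSpectrum (𝓞 F) // Divides F w v}) := by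
  obtain ⟨𝔓, h𝔓⟩ := exists_above v
  obtain ⟨T, hT1, hT2, -⟩ := exists_T F F le_rfl v 𝔓 h𝔓
  set D := (decompGrp K 𝔓).map (AlgEquiv.restrictNormalHom F) with hD
  have hDQ : D ≤ relGal F Q := by
    rintro _ ⟨σ, hσ, rfl⟩
    rw [← map_fixingSubgroup F Q hQ]
    exact Subgroup.mem_map_of_mem _ (hfix 𝔓 h𝔓 σ hσ)
  have hcard : Nat.card {w : HeightOneSpectrum (𝓞 F) // Divides F w v} = D.index := by
    have hlift : ∀ a b : F ≃ₐ[K] F, (QuotientGroup.leftRel D) a b → T a = T b := by
      intro a b hab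
      rw [QuotientGroup.leftRel_apply] at hab
      rw [hT2]
      exact ⟨1, Subgroup.one_mem _, ⟨a⁻¹ * b, hab⟩, by simp⟩
    let f : ((F ≃ₐ[K] F) ⧸ D) → {w : HeightOneSpectrum (𝓞 F) // Divides F w v} :=
      fun z => Quotient.lift T hlift z
    have hf : Function.Bijective f := by
      constructor
      · intro a b
        induction a using Quotient.inductionOn with
        | _ a =>
          induction b using Quotient.inductionOn with
          | _ b =>
            intro hab
            have h1 : T a = T b := hab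
            rw [hT2] at h1
            obtain ⟨h, hh, d, hd⟩ := h1
            have hh1 : h = 1 := by
              have h3 : h ∈ relGal F F := hh
              apply AlgEquiv.ext
              intro y
              exact h3 y y.2
            apply Quotient.sound
            show (QuotientGroup.leftRel D) a b
            rw [QuotientGroup.leftRel_apply, hd, hh1]
            have : a⁻¹ * (1 * a * (d : F ≃ₐ[K] F)) = d := by group
            rw [this]
            exact d.2
      · intro w
        obtain ⟨g, hg⟩ := hT1 w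
        exact ⟨Quotient.mk _ g, hg⟩
    rw [← Nat.card_congr (Equiv.ofBijective f hf)]
    rfl
  rw [hcard, ← Subgroup.relIndex_mul_index hDQ, roota_index F Q hQ h2]
  exact even_two.mul_left _

/-- An even number of places above a place at which `z`, which is not a square in `K`, is a
square. -/
theorem even_places (F : IntermediateField K (AlgebraicClosure K)) [FiniteDimensional K F]
    [IsGalois K F] (z : K) (s : AlgebraicClosure K) (hsF : s ∈ F)
    (hs : s ^ 2 = algebraMap K (AlgebraicClosure K) z) (hK : ∀ y : K, y ^ 2 ≠ z)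
    (v : HeightOneSpectrum (𝓞 K)) (hz : LocSq v z) :
    Even (Nat.card {w : HeightOneSpectrum (𝓞 F) // Divides F w v}) := by
  refine even_placesQ F (IntermediateField.adjoin K {s})
    (IntermediateField.adjoin_simple_le_iff.2 hsF) (tow_finrank z s hs hK) v ?_
  intro 𝔓 h𝔓 σ hσ
  have hfix := fix_locSq v z hz 𝔓 h𝔓 σ hσ s hs
  rw [IntermediateField.mem_fixingSubgroup_iff]
  intro y hy
  induction hy using IntermediateField.adjoin_induction with
  | mem t ht =>
    rw [Set.mem_singleton_iff.1 ht]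
    exact hfix
  | algebraMap t => exact σ.commutes t
  | add t w _ _ h1 h2 => rw [map_add, h1, h2]
  | inv t _ h1 => rw [map_inv₀, h1]
  | mul t w _ _ h1 h2 => rw [map_mul, h1, h2]

/-- The order of a group with two independent characters with values `±1`. -/
theorem four_dvd_card {G : Type*} [Group G] (ε₁ ε₂ : G →* ℤˣ) (h1 : ε₁ ≠ 1)
    (h2 : ε₂ ≠ 1) (h12 : ε₁ ≠ ε₂) : 4 ∣ Nat.card G := by
  have hex : ∀ ε ε' : G →* ℤˣ, ε ≠ ε' → ∃ g, ε g ≠ ε' g := by
    intro ε ε' h
    by_contra h0
    push Not at h0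
    exact h (MonoidHom.ext h0)
  have hneg : ∀ ε : G →* ℤˣ, ε ≠ 1 → ∃ g, ε g = -1 := by
    intro ε h
    obtain ⟨g, hg⟩ := hex ε 1 h
    exact ⟨g, (Int.units_eq_one_or (ε g)).resolve_left hg⟩
  obtain ⟨a, ha⟩ := hneg ε₁ h1
  obtain ⟨b, hb⟩ := hneg ε₂ h2
  obtain ⟨c, hc⟩ := hex ε₁ ε₂ h12
  have key : (∃ g, ε₁ g = -1 ∧ ε₂ g = 1) ∧ ∃ g, ε₁ g = 1 ∧ ε₂ g = -1 := by
    rcases Int.units_eq_one_or (ε₁ c) with h3 | h3 <;> rcases Int.units_eq_one_or (ε₂ c) with h4 | h4
    · exact absurd (h3.trans h4.symm) hc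
    · refine ⟨?_, c, h3, h4⟩
      rcases Int.units_eq_one_or (ε₂ a) with h5 | h5
      · exact ⟨a, ha, h5⟩
      · exact ⟨a * c, by rw [map_mul, ha, h3]; rfl, by rw [map_mul, h5, h4]; rfl⟩
    · refine ⟨⟨c, h3, h4⟩, ?_⟩
      rcases Int.units_eq_one_or (ε₁ b) with h5 | h5
      · exact ⟨b, h5, hb⟩
      · exact ⟨b * c, by rw [map_mul, h5, h3]; rfl, by rw [map_mul, hb, h4]; rfl⟩
    · exact absurd (h3.trans h4.symm) hc
  obtain ⟨⟨g, hg1, hg2⟩, g', hg1', hg2'⟩ := key
  have hsurj : Function.Surjective (ε₁.prod ε₂) := by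
    rintro ⟨p, q⟩
    rcases Int.units_eq_one_or p with rfl | rfl <;> rcases Int.units_eq_one_or q with rfl | rfl
    · exact ⟨1, map_one _⟩
    · exact ⟨g', by rw [MonoidHom.prod_apply, hg1', hg2']⟩
    · exact ⟨g, by rw [MonoidHom.prod_apply, hg1, hg2]⟩
    · exact ⟨g * g', by rw [MonoidHom.prod_apply, map_mul, map_mul, hg1, hg2, hg1', hg2']; rfl⟩
  have h3 := Subgroup.card_dvd_of_surjective (ε₁.prod ε₂) hsurj
  rwa [Nat.card_prod, Nat.card_eq_fintype_card, Fintype.card_units_int] at h3

/-- An even number of infinite places. -/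
theorem even_infinite (F : IntermediateField K (AlgebraicClosure K)) [FiniteDimensional K F]
    [IsGalois K F] (h4 : 4 ∣ Module.finrank K F) : Even (Nat.card (InfinitePlace F)) := by
  classical
  have hnf : NumberField F := NumberField.of_module_finite K F
  rw [Nat.card_eq_fintype_card, InfinitePlace.card_eq_card_isUnramifiedIn (k := K) (K := F)]
  obtain ⟨m, hm⟩ := h4
  rw [hm]
  have h1 : 4 * m / 2 = 2 * m := by omega
  rw [h1]
  have h5 : Even (4 * m) := ⟨2 * m, by ring⟩
  exact (h5.mul_left _).add ((even_two_mul m).mul_left _)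

/-- The global root number over a finite Galois extension `F` of a number field `K` of degree `n`
which contains the square roots of at least `3 n + 2` elements of `K`, independent modulo squares. -/
theorem signK (F : IntermediateField K (AlgebraicClosure K)) [FiniteDimensional K F] [IsGalois K F]
    {k : ℕ} (hk : 3 * Module.finrank ℚ K + 2 ≤ k) (x : Fin k → K)
    (hind : ∀ J : Finset (Fin k), J.Nonempty → ∀ y : K, y ^ 2 ≠ ∏ i ∈ J, x i)
    (hF : ∀ i, ∃ s ∈ F, s ^ 2 = algebraMap K (AlgebraicClosure K) (x i))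
    (W : LocalSigns K) (hW : IsSignFamily W) (g : ℕ) : signOver W g F = 1 := by
  classical
  have hx : ∀ i, x i ≠ 0 := by
    intro i h
    refine hind {i} (Finset.singleton_nonempty i) 0 ?_
    rw [Finset.prod_singleton, h, zero_pow two_ne_zero]
  choose s hsF hs using hF
  have hsJ : ∀ J : Finset (Fin k), (∏ i ∈ J, s i) ∈ F ∧
      (∏ i ∈ J, s i) ^ 2 = algebraMap K (AlgebraicClosure K) (∏ i ∈ J, x i) := by
    intro J
    refine ⟨prod_mem fun i _ => hsF i, ?_⟩
    rw [← Finset.prod_pow, map_prod]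
    exact Finset.prod_congr rfl fun i _ => hs i
  -- the infinite places
  have hinf : Even (Nat.card (InfinitePlace F)) := by
    apply even_infinite
    let i₀ : Fin k := ⟨0, by omega⟩
    let i₁ : Fin k := ⟨1, by omega⟩
    have hne : i₀ ≠ i₁ := by
      intro h
      have := congrArg Fin.val h
      simp [i₀, i₁] at this
    obtain ⟨ε₀, hε₀⟩ := epsK F (x i₀) (s i₀) (hsF i₀) (hs i₀)
    obtain ⟨ε₁, hε₁⟩ := epsK F (x i₁) (s i₁) (hsF i₁) (hs i₁)
    have hval : ∀ (ε : (F ≃ₐ[K] F) →* ℤˣ) (a : K),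
        (∀ σ, ε (AlgEquiv.restrictNormalHom F σ) = chiK a σ) → ε = 1 → ∃ y : K, y ^ 2 = a := by
      intro ε a h3 h4
      apply isSquare_of_chiK
      apply MonoidHom.ext
      intro σ
      rw [← h3 σ, h4]
      rfl
    have h5 : ∀ i, ∀ y : K, y ^ 2 ≠ x i := by
      intro i y h
      refine hind {i} (Finset.singleton_nonempty i) y ?_
      rw [Finset.prod_singleton]
      exact h
    rw [← IsGalois.card_aut_eq_finrank]
    refine four_dvd_card ε₀ ε₁ ?_ ?_ ?_
    · intro h
      obtain ⟨y, hy⟩ := hval ε₀ _ hε₀ h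
      exact h5 i₀ y hy
    · intro h
      obtain ⟨y, hy⟩ := hval ε₁ _ hε₁ h
      exact h5 i₁ y hy
    · intro h
      have h6 : chiK (x i₀ * x i₁) = 1 := by
        rw [chiK_mul (hx i₀) (hx i₁)]
        apply MonoidHom.ext
        intro σ
        rw [MonoidHom.mul_apply, ← hε₀ σ, ← hε₁ σ, h, Int.units_mul_self]
        rfl
      obtain ⟨y, hy⟩ := isSquare_of_chiK h6
      refine hind {i₀, i₁} ⟨i₀, by simp⟩ y ?_
      rw [Finset.prod_pair hne]
      exact hy
  unfold signOver
  rw [(hinf.mul_left g).neg_one_pow, one_mul, (finprod_places F (W F) (hW.almost F)).2]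
  rw [finprod_congr (g := fun _ => (1 : ℤ)), finprod_one]
  intro v
  obtain ⟨T, hT, hloc⟩ := exists_locSq v hk x hx
  have hev := even_places F (∏ i ∈ T, x i) (∏ i ∈ T, s i) (hsJ T).1 (hsJ T).2 (hind T hT) v hloc
  obtain ⟨𝔓, h𝔓⟩ := exists_above v
  obtain ⟨T', hT', -⟩ := exists_T F F le_rfl v 𝔓 h𝔓
  have hfin : Finite {w : HeightOneSpectrum (𝓞 F) // Divides F w v} :=
    Finite.of_surjective T' hT'
  exact root_prod_even hev _ (fun w => hW.sign F w.1)
    (fun w w' => hW.transport F v w.1 w'.1 w.2 w'.2)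

end Pool.Agent.H.MP_ac3185_nt.KT
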