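import Pool.Agent.H.MP_ac3185_nt.helper16.K.Split
import Pool.Agent.H.MP_ac3185_nt.helper16.DegA
import Pool.Agent.H.MP_ac3185_nt.O42.Deg

/-! Every number field has a biquadratic extension in which every place splits into an even number
of places. -/

set_option autoImplicit false

open CategoryTheory AlgebraicGeometry NumberField IsDedekindDomain
open scoped MonObj

namespace Pool.Agent.H.MP_ac3185_nt.KT

open OE

universe u

variable {K : Type u} [Field K] [NumberField K]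

/-- A nonzero square in the residue field of an odd place. -/
theorem locSq_of_isSquare (v : HeightOneSpectrum (𝓞 K)) (h2 : (2 : 𝓞 K) ∉ v.asIdeal) (c : 𝓞 K)
    (hc : c ∉ v.asIdeal) (hsq : IsSquare (Ideal.Quotient.mk v.asIdeal c)) : LocSq v (c : K) := by
  obtain ⟨q, hq⟩ := hsq
  obtain ⟨B, rfl⟩ := Ideal.Quotient.mk_surjective q
  refine ⟨c, B, 1, one_ne_zero, by simp, ?_, Or.inl ⟨h2, ?_⟩⟩
  · intro h0
    apply hc
    rw [← Ideal.Quotient.eq_zero_iff_mem, hq, Ideal.Quotient.eq_zero_iff_mem.2 h0, mul_zero]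
  · rw [← map_mul, Ideal.Quotient.eq, ← sq] at hq
    exact hq

omit [NumberField K] in
theorem natCast_mem_iff_false (v : HeightOneSpectrum (𝓞 K)) {m n : ℕ} (hmn : Nat.Coprime m n)
    (hm : ((m : ℕ) : 𝓞 K) ∈ v.asIdeal) (hn : ((n : ℕ) : 𝓞 K) ∈ v.asIdeal) : False := by
  apply v.isPrime.ne_top
  rw [Ideal.eq_top_iff_one]
  have h1 : (m : ℤ) * m.gcdA n + n * m.gcdB n = 1 := by
    rw [← Nat.gcd_eq_gcd_ab, hmn.gcd_eq_one, Nat.cast_one]
  have h2 : ((m : ℕ) : 𝓞 K) * ((m.gcdA n : ℤ) : 𝓞 K) + ((n : ℕ) : 𝓞 K) * ((m.gcdB n : ℤ) : 𝓞 K) =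
      1 := by
    exact_mod_cast congrArg (Int.cast : ℤ → 𝓞 K) h1
  rw [← h2]
  exact add_mem (Ideal.mul_mem_right _ _ hm) (Ideal.mul_mem_right _ _ hn)

/-- At every finite place `v` one of the numbers `p`, `q`, `p q` is a square. -/
theorem locSq_two_primes (p q : ℕ) (hp : p.Prime) (hq : q.Prime) (hp8 : p ≡ 1 [MOD 8])
    (hq8 : q ≡ 1 [MOD 8 * p]) (v : HeightOneSpectrum (𝓞 K)) :
    LocSq v (p : K) ∨ LocSq v (q : K) ∨ LocSq v ((p : K) * (q : K)) := by
  classical
  have hcast : ∀ n : ℕ, (((n : ℕ) : 𝓞 K) : K) = (n : K) := fun n => map_natCast _ n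
  have hqp : q ≡ 1 [MOD p] := hq8.of_mul_left 8
  have hne : p ≠ q := by
    rintro rfl
    have h1 : p ∣ 1 := (Nat.modEq_zero_iff_dvd).1 (hqp.symm.trans ((Nat.modEq_zero_iff_dvd).2 dvd_rfl))
    exact hp.one_lt.ne' (Nat.dvd_one.1 h1)
  have hcop : Nat.Coprime p q := (Nat.coprime_primes hp hq).2 hne
  have hp4 : p % 4 = 1 := by
    have h1 : p % 8 = 1 % 8 := hp8
    omega
  have hp2 : p ≠ 2 := by
    rintro rfl
    omega
  have hq2 : q ≠ 2 := by
    rintro rfl
    have h1 : 2 % 8 = 1 % 8 := hq8.of_mul_right p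
    omega
  by_cases h2 : (2 : 𝓞 K) ∈ v.asIdeal
  · -- `p = 1 + 8 m`
    left
    obtain ⟨m, hm⟩ : ∃ m, p = 1 + 8 * m := ⟨p / 8, by
      have h1 : p % 8 = 1 % 8 := hp8
      omega⟩
    refine ⟨((p : ℕ) : 𝓞 K), 1, 1, one_ne_zero, by simp [hcast], ?_, Or.inr ⟨2 * (m : 𝓞 K),
      Ideal.mul_mem_right _ _ h2, ?_⟩⟩
    · intro h
      exact v.isPrime.ne_top ((Ideal.eq_top_iff_one _).2 h)
    · rw [hm]
      push_cast
      ring
  by_cases hpv : ((p : ℕ) : 𝓞 K) ∈ v.asIdeal
  · -- `q` is congruent to `1` modulo `p`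
    right; left
    refine ⟨((q : ℕ) : 𝓞 K), 1, 1, one_ne_zero, by simp [hcast], ?_, Or.inl ⟨h2, ?_⟩⟩
    · intro h
      exact v.isPrime.ne_top ((Ideal.eq_top_iff_one _).2 h)
    · obtain ⟨m, hm⟩ := (Nat.modEq_iff_dvd' hq.one_lt.le).1 hqp.symm
      have hm' : q = 1 + p * m := by
        have := hq.one_lt
        omega
      rw [hm']
      push_cast
      have : (1 : 𝓞 K) + (p : 𝓞 K) * (m : 𝓞 K) - 1 ^ 2 = (p : 𝓞 K) * (m : 𝓞 K) := by ring
      rw [this]
      exact Ideal.mul_mem_right _ _ hpv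
  by_cases hqv : ((q : ℕ) : 𝓞 K) ∈ v.asIdeal
  · -- quadratic reciprocity
    left
    have _ : Fact p.Prime := ⟨hp⟩
    have _ : Fact q.Prime := ⟨hq⟩
    have h3 : IsSquare (p : ZMod q) := by
      rw [← ZMod.exists_sq_eq_prime_iff_of_mod_four_eq_one hp4 hq2]
      have h4 : (q : ZMod p) = 1 := by
        have := (ZMod.natCast_eq_natCast_iff q 1 p).2 hqp
        rwa [Nat.cast_one] at this
      rw [h4]
      exact IsSquare.one
    obtain ⟨z, hz⟩ := h3
    have h4 : ((p : ℤ) : ZMod q) = ((z.val : ℤ) ^ 2 : ℤ) := by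
      push_cast
      rw [ZMod.natCast_zmod_val, hz, sq]
    have h5 : (q : ℤ) ∣ (z.val : ℤ) ^ 2 - p := (ZMod.intCast_eq_intCast_iff_dvd_sub _ _ _).1 h4
    obtain ⟨m, hm⟩ := h5
    have h6 : ((p : ℕ) : 𝓞 K) - ((z.val : ℕ) : 𝓞 K) ^ 2 = ((q : ℕ) : 𝓞 K) * (-(m : ℤ) : 𝓞 K) := by
      have h7 := congrArg (Int.cast : ℤ → 𝓞 K) hm
      push_cast at h7
      linear_combination -h7
    have h8 : ((p : ℕ) : 𝓞 K) - ((z.val : ℕ) : 𝓞 K) ^ 2 ∈ v.asIdeal := by
      rw [h6]
      exact Ideal.mul_mem_right _ _ hqv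
    refine ⟨((p : ℕ) : 𝓞 K), ((z.val : ℕ) : 𝓞 K), 1, one_ne_zero, by simp [hcast], ?_,
      Or.inl ⟨h2, h8⟩⟩
    intro h
    apply hpv
    have h9 := add_mem h8 (Ideal.pow_mem_of_mem _ h 2 two_pos)
    rwa [sub_add_cancel] at h9
  · -- the product of two nonsquares in the residue field is a square
    have hmax : v.asIdeal.IsMaximal := v.isMaximal
    let _ : Field (𝓞 K ⧸ v.asIdeal) := Ideal.Quotient.field v.asIdeal
    have _ : Finite (𝓞 K ⧸ v.asIdeal) := Ideal.finiteQuotientOfFreeOfNeBot v.asIdeal v.ne_bot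
    let _ : Fintype (𝓞 K ⧸ v.asIdeal) := Fintype.ofFinite _
    by_cases hs : IsSquare (Ideal.Quotient.mk v.asIdeal ((p : ℕ) : 𝓞 K))
    · left
      rw [← hcast]
      exact locSq_of_isSquare v h2 _ hpv hs
    by_cases hs' : IsSquare (Ideal.Quotient.mk v.asIdeal ((q : ℕ) : 𝓞 K))
    · right; left
      rw [← hcast]
      exact locSq_of_isSquare v h2 _ hqv hs'
    right; right
    have hr0 : Ideal.Quotient.mk v.asIdeal ((p : ℕ) : 𝓞 K) ≠ 0 :=
      fun h0 => hpv (Ideal.Quotient.eq_zero_iff_mem.1 h0)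
    have hr0' : Ideal.Quotient.mk v.asIdeal ((q : ℕ) : 𝓞 K) ≠ 0 :=
      fun h0 => hqv (Ideal.Quotient.eq_zero_iff_mem.1 h0)
    have hsq : IsSquare (Ideal.Quotient.mk v.asIdeal (((p : ℕ) : 𝓞 K) * ((q : ℕ) : 𝓞 K))) := by
      rw [map_mul, ← quadraticChar_one_iff_isSquare (mul_ne_zero hr0 hr0'), map_mul,
        quadraticChar_neg_one_iff_not_isSquare.2 hs, quadraticChar_neg_one_iff_not_isSquare.2 hs']
      norm_num
    have h3 := locSq_of_isSquare v h2 (((p : ℕ) : 𝓞 K) * ((q : ℕ) : 𝓞 K)) (fun h => by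
      rcases v.isPrime.mem_or_mem h with h | h
      · exact hpv h
      · exact hqv h) hsq
    have h4 : ((((p : ℕ) : 𝓞 K) * ((q : ℕ) : 𝓞 K) : 𝓞 K) : K) = (p : K) * (q : K) := by
      rw [← hcast, ← hcast]
      exact map_mul _ _ _
    rwa [h4] at h3

/-- In an infinite set of prime numbers there is one, `q`, not in the finite set `R`, for which
`q * num R` is not a square in `K`. -/
theorem finite_bad (R : Finset ℕ) (hR : ∀ r ∈ R, r.Prime) :
    {q : ℕ | q.Prime ∧ q ∉ R ∧ ∃ y : K, y ^ 2 = (HT.num (insert q R) : K)}.Finite := by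
  classical
  by_contra hinf
  obtain ⟨T, hT, hcard⟩ := Set.Infinite.exists_subset_card_eq hinf (Module.finrank ℚ K + 1)
  have hinj : Set.InjOn (fun q : ℕ => insert q R) (T : Set ℕ) := by
    intro q hq q' hq' h
    have h1 : q ∉ R := (hT hq).2.1
    have h2 : q ∈ insert q' R := by
      have h3 : insert q R = insert q' R := h
      rw [← h3]
      exact Finset.mem_insert_self q R
    rcases Finset.mem_insert.1 h2 with h3 | h3
    · exact h3
    · exact absurd h3 h1
  have h1 := HT.card_squares (K := K) (T.image fun q => insert q R) (by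
    intro S hS r hr
    obtain ⟨q, hq, rfl⟩ := Finset.mem_image.1 hS
    rcases Finset.mem_insert.1 hr with h3 | h3
    · rw [h3]
      exact (hT hq).1
    · exact hR r h3) (by
    intro S hS
    obtain ⟨q, hq, rfl⟩ := Finset.mem_image.1 hS
    exact (hT hq).2.2)
  rw [Finset.card_image_of_injOn hinj, hcard] at h1
  omega

/-- The prime numbers used for the biquadratic extension. -/
theorem exists_two_primes : ∃ p q : ℕ, p.Prime ∧ q.Prime ∧ p ≡ 1 [MOD 8] ∧ q ≡ 1 [MOD 8 * p] ∧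
    (∀ y : K, y ^ 2 ≠ (p : K)) ∧ (∀ y : K, y ^ 2 ≠ (q : K)) ∧
    ∀ y : K, y ^ 2 ≠ (p : K) * (q : K) := by
  classical
  obtain ⟨p, ⟨hp, hp8⟩, hpn⟩ := ((Nat.infinite_setOfPred_prime_modEq_one (k := 8)
    (by norm_num)).sdiff (finite_bad (K := K) ∅ (by simp))).nonempty
  have h8p : 8 * p ≠ 0 := mul_ne_zero (by norm_num) hp.ne_zero
  obtain ⟨q, ⟨hq, hq8⟩, hqn⟩ := ((Nat.infinite_setOfPred_prime_modEq_one (k := 8 * p) h8p).sdiff
    ((finite_bad (K := K) ∅ (by simp)).union (finite_bad (K := K) {p} (by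
      intro r hr
      rw [Finset.mem_singleton] at hr
      rw [hr]
      exact hp)))).nonempty
  have hne : q ≠ p := by
    rintro rfl
    have h1 : q ∣ 1 := (Nat.modEq_zero_iff_dvd).1
      ((hq8.of_mul_left 8).symm.trans ((Nat.modEq_zero_iff_dvd).2 dvd_rfl))
    exact hq.one_lt.ne' (Nat.dvd_one.1 h1)
  refine ⟨p, q, hp, hq, hp8, hq8, ?_, ?_, ?_⟩
  · intro y hy
    apply hpn
    refine ⟨hp, by simp, y, ?_⟩
    rw [hy]
    unfold HT.num
    rw [Finset.prod_insert (by simp), Finset.prod_empty, mul_one]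
  · intro y hy
    apply hqn
    left
    refine ⟨hq, by simp, y, ?_⟩
    rw [hy]
    unfold HT.num
    rw [Finset.prod_insert (by simp), Finset.prod_empty, mul_one]
  · intro y hy
    apply hqn
    right
    refine ⟨hq, by simpa using hne, y, ?_⟩
    rw [hy]
    unfold HT.num
    rw [Finset.prod_insert (by simpa using hne), Finset.prod_singleton]
    push_cast
    ring

/-- Every number field has a biquadratic extension in which every place splits into an even number
of places. -/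
theorem exists_evenSplit : ∃ L : IntermediateField K (AlgebraicClosure K),
    FiniteDimensional K L ∧ IsGalois K L ∧ Module.finrank K L = 4 ∧ EvenSplit L := by
  classical
  obtain ⟨p, q, hp, hq, hp8, hq8, h1, h2, h12⟩ := exists_two_primes (K := K)
  set X : Finset K := {(p : K), (q : K)} with hX
  set L := sqrtExt (X : Set K) with hL
  have hfd : FiniteDimensional K L := sqrtExt_finite (X : Set K) X.finite_toSet
  obtain ⟨hgal, -⟩ := tow_isGalois (X : Set K) L le_rfl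
  have hpX : (p : K) ∈ (X : Set K) := by simp [hX]
  have hqX : (q : K) ∈ (X : Set K) := by simp [hX]
  have hp0 : (p : K) ≠ 0 := Nat.cast_ne_zero.2 hp.ne_zero
  have hq0 : (q : K) ≠ 0 := Nat.cast_ne_zero.2 hq.ne_zero
  have hsp := mem_sqrtExt hpX (rtK_sq K (p : K))
  have hsq := mem_sqrtExt hqX (rtK_sq K (q : K))
  have h4 := four_dvd_of_roots L (p : K) (q : K) hp0 hq0 h1 h2 h12 _ _ hsp hsq (rtK_sq K _)
    (rtK_sq K _)
  refine ⟨L, hfd, hgal, ?_, h4, fun v => ?_⟩
  · have hle : Module.finrank K L ≤ 4 := by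
      refine (sqrtExt_finrank_le X).trans ?_
      calc 2 ^ X.card ≤ 2 ^ 2 := Nat.pow_le_pow_right (by norm_num) Finset.card_le_two
        _ = 4 := by norm_num
    have hpos : 0 < Module.finrank K L := Module.finrank_pos
    exact le_antisymm hle (Nat.le_of_dvd hpos h4)
  · rcases locSq_two_primes p q hp hq hp8 hq8 v with h | h | h
    · exact even_places L (p : K) _ hsp (rtK_sq K _) h1 v h
    · exact even_places L (q : K) _ hsq (rtK_sq K _) h2 v h
    · exact even_places L ((p : K) * (q : K)) _ (mul_mem hsp hsq) (by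
        rw [mul_pow, rtK_sq, rtK_sq, map_mul]) h12 v h

end Pool.Agent.H.MP_ac3185_nt.KT
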