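import Pool.Agent.H.MP_ac3185_nt.helper16.K.Local
import Pool.Agent.H.MP_ac3185_nt.Q42.Root

/-! A finite number of classes of elements of `K*` such that the product of two elements of a class is
a square at given places. -/

set_option autoImplicit false

open NumberField IsDedekindDomain

namespace Pool.Agent.H.MP_ac3185_nt.KT

universe u

variable {K : Type u} [Field K] [NumberField K]

theorem finite_places_mem {m : ℕ} (hm : m ≠ 0) :
    {v : HeightOneSpectrum (𝓞 K) | ((m : ℕ) : 𝓞 K) ∈ v.asIdeal}.Finite := by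
  have h0 : Ideal.span {((m : ℕ) : 𝓞 K)} ≠ 0 := by
    rw [Ne, Ideal.zero_eq_bot, Ideal.span_singleton_eq_bot]
    exact_mod_cast hm
  refine (Ideal.finite_factors h0).subset fun v hv => ?_
  show v.asIdeal ∣ _
  rw [Ideal.dvd_span_singleton]
  exact hv

/-- Finitely many classes. -/
theorem exists_classes {m : ℕ} (hm : m ≠ 0) : ∃ (C : Type u) (_ : Finite C) (κ : Kˣ → C),
    ∀ a b : Kˣ, κ a = κ b →
      (∀ v : HeightOneSpectrum (𝓞 K), ((m : ℕ) : 𝓞 K) ∈ v.asIdeal →
        LocSq v ((a * b : Kˣ) : K)) ∧ QF.TotPos ((a * b : Kˣ) : K) := by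
  classical
  have hfin := finite_places_mem (K := K) hm
  choose C hC κ _ hκ using fun v : HeightOneSpectrum (𝓞 K) => classes v
  have hf : Finite {v : HeightOneSpectrum (𝓞 K) | ((m : ℕ) : 𝓞 K) ∈ v.asIdeal} := hfin
  refine ⟨((v : {v : HeightOneSpectrum (𝓞 K) | ((m : ℕ) : 𝓞 K) ∈ v.asIdeal}) → C v) ×
    ((K →+* ℂ) → Bool), inferInstance,
    fun a => (fun v => κ v (a : K), fun φ => decide (0 < (φ (a : K)).re)), ?_⟩
  intro a b h
  rw [Prod.mk.injEq] at h
  refine ⟨fun v hv => ?_, fun φ hφ => ?_⟩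
  · rw [Units.val_mul]
    exact hκ v _ _ a.ne_zero b.ne_zero (congrFun h.1 ⟨v, hv⟩)
  · have h1 : (0 < (φ (a : K)).re) ↔ (0 < (φ (b : K)).re) := by
      have := congrFun h.2 φ
      simpa using this
    have hre : ∀ y : K, (((φ y).re : ℝ) : ℂ) = φ y := fun y => Complex.conj_eq_iff_re.1 (hφ y)
    have hne : ∀ y : Kˣ, (φ (y : K)).re ≠ 0 := by
      intro y h0
      have h2 := hre (y : K)
      rw [h0, Complex.ofReal_zero] at h2
      exact y.ne_zero ((map_eq_zero φ).1 h2.symm)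
    have hmul : (φ ((a * b : Kˣ) : K)).re = (φ (a : K)).re * (φ (b : K)).re := by
      rw [Units.val_mul, map_mul, ← hre (a : K), ← hre (b : K), ← Complex.ofReal_mul,
        Complex.ofReal_re, Complex.ofReal_re, Complex.ofReal_re]
    rw [hmul]
    rcases lt_or_gt_of_ne (hne a) with h2 | h2
    · have h3 : ¬ 0 < (φ (b : K)).re := fun h4 => absurd (h1.2 h4) (not_lt.2 h2.le)
      exact mul_pos_of_neg_of_neg h2 (lt_of_le_of_ne (not_lt.1 h3) (hne b))
    · exact mul_pos h2 (h1.1 h2)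

end Pool.Agent.H.MP_ac3185_nt.KT
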