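import Mathlib

/-! Finite groups with cyclic Sylow `2`-subgroups. -/

set_option autoImplicit false

namespace Pool.Agent.H.MP_ac3185_nt.KT

/-- A character with values `±1` is trivial on the elements of a subgroup of odd order. -/
theorem char_odd {G : Type*} [Group G] [Finite G] (N : Subgroup G) (hN : Odd (Nat.card N))
    (ε : G →* ℤˣ) (n : G) (hn : n ∈ N) : ε n = 1 := by
  have h1 : n ^ Nat.card N = 1 := by
    have := pow_card_eq_one' (x := (⟨n, hn⟩ : N))
    exact congrArg Subtype.val this
  have h2 : ε n ^ Nat.card N = 1 := by rw [← map_pow, h1, map_one]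
  rcases Int.units_eq_one_or (ε n) with h | h
  · exact h
  · rw [h, hN.neg_one_pow] at h2
    exact absurd h2 (by decide)

/-- A finite group with cyclic Sylow `2`-subgroups has a normal `2`-complement, and at most one
non-trivial character with values `±1`. -/
theorem cyc_two {G : Type*} [Group G] [Finite G] (h : ∀ P : Sylow 2 G, IsCyclic P) :
    (∃ N : Subgroup G, ∃ _ : N.Normal, Odd (Nat.card N) ∧ IsPGroup 2 (G ⧸ N)) ∧
      ∀ ε ε' : G →* ℤˣ, ε ≠ 1 → ε' ≠ 1 → ε = ε' := by
  by_cases h2 : 2 ∣ Nat.card G
  · have hmin : (Nat.card G).minFac = 2 := (Nat.minFac_eq_two_iff _).2 h2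
    obtain ⟨P⟩ : Nonempty (Sylow 2 G) := inferInstance
    have hP := h P
    set N := (MonoidHom.transferSylow P (hP.normalizer_le_centralizer hmin)).ker with hN
    have hcomp : N.IsComplement' P := IsCyclic.isComplement' hmin hP
    have hodd : Odd (Nat.card N) := by
      rw [← Nat.not_even_iff_odd, even_iff_two_dvd]
      exact MonoidHom.not_dvd_card_ker_transferSylow P (hP.normalizer_le_centralizer hmin)
    refine ⟨⟨N, MonoidHom.normal_ker _, hodd, ?_⟩, ?_⟩
    · obtain ⟨k, hk⟩ := P.2.exists_card_eq
      have h3 : Nat.card (G ⧸ N) = 2 ^ k := by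
        rw [← hk]
        exact hcomp.symm.index_eq_card
      exact IsPGroup.of_card h3
    · obtain ⟨⟨x, hxP⟩, hx⟩ := hP.exists_generator
      have hdec : ∀ g : G, ∃ (n : G) (j : ℤ), n ∈ N ∧ g = n * x ^ j := by
        intro g
        obtain ⟨⟨n, y⟩, hny⟩ := hcomp.2 g
        obtain ⟨j, hj⟩ := Subgroup.mem_zpowers_iff.1 (hx ⟨y, y.2⟩)
        refine ⟨n, j, n.2, ?_⟩
        have h4 : x ^ j = (y : G) := congrArg Subtype.val hj
        rw [h4]
        exact hny.symm
      have hneg : ∀ ε : G →* ℤˣ, ε ≠ 1 → ε x = -1 := by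
        intro ε hε
        rcases Int.units_eq_one_or (ε x) with h3 | h3
        · exfalso
          apply hε
          apply MonoidHom.ext
          intro g
          obtain ⟨n, j, hn, rfl⟩ := hdec g
          rw [map_mul, map_zpow, h3, one_zpow, mul_one, char_odd N hodd ε n hn, MonoidHom.one_apply]
        · exact h3
      intro ε ε' h3 h4
      apply MonoidHom.ext
      intro g
      obtain ⟨n, j, hn, rfl⟩ := hdec g
      rw [map_mul, map_mul, map_zpow, map_zpow, hneg ε h3, hneg ε' h4, char_odd N hodd ε n hn,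
        char_odd N hodd ε' n hn]
  · have hodd : Odd (Nat.card (⊤ : Subgroup G)) := by
      rw [Subgroup.card_top, ← Nat.not_even_iff_odd, even_iff_two_dvd]
      exact h2
    refine ⟨⟨⊤, inferInstance, hodd, ?_⟩, ?_⟩
    · apply IsPGroup.of_card (n := 0)
      rw [pow_zero]
      exact Subgroup.index_top
    · intro ε ε' h3
      exfalso
      apply h3
      apply MonoidHom.ext
      intro g
      exact char_odd ⊤ hodd ε g trivial

end Pool.Agent.H.MP_ac3185_nt.KT
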