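import Pool.Agent.H.MP_ac3185_nt.O42.ChiK
import Pool.Agent.H.MP_ac3185_nt.U.RootB

/-! Decomposition groups which fix the square roots of an algebraic integer of `K`. -/

set_option autoImplicit false

open CategoryTheory AlgebraicGeometry NumberField IsDedekindDomain
open scoped MonObj

namespace Pool.Agent.H.MP_ac3185_nt.KT

universe u

variable {K : Type u} [Field K] [NumberField K]

omit [NumberField K] in
/-- Automorphisms map square roots of elements of `K` to themselves or their negatives. -/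
theorem sq_map_eqK (a : K) (σ : AlgebraicClosure K ≃ₐ[K] AlgebraicClosure K)
    (x : AlgebraicClosure K) (hx : x ^ 2 = algebraMap K (AlgebraicClosure K) a) :
    σ x = x ∨ σ x = -x := by
  rw [← sq_eq_sq_iff_eq_or_eq_neg, ← map_pow, hx, AlgEquiv.commutes]

omit [NumberField K] in
theorem above_mem {𝔓 : Ideal (𝓞 (AlgebraicClosure K))} {v : HeightOneSpectrum (𝓞 K)}
    (h𝔓 : Above 𝔓 v) (c : 𝓞 K) :
    algebraMap (𝓞 K) (𝓞 (AlgebraicClosure K)) c ∈ 𝔓 ↔ c ∈ v.asIdeal := by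
  rw [← h𝔓.2, Ideal.mem_comap]

/-- An algebraic integer `c = B ^ 2 + 4 t` of `K` with `B ∉ v` and `t ∈ v` is a square in the
completion at `v`: the decomposition groups above `v` fix its square roots. -/
theorem fix_even (v : HeightOneSpectrum (𝓞 K)) (c B t : 𝓞 K) (hB : B ∉ v.asIdeal)
    (ht : t ∈ v.asIdeal) (hc : c = B ^ 2 + 4 * t)
    (𝔓 : Ideal (𝓞 (AlgebraicClosure K))) (h𝔓 : Above 𝔓 v)
    (σ : AlgebraicClosure K ≃ₐ[K] AlgebraicClosure K) (hσ : σ ∈ decompGrp K 𝔓)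
    (x : AlgebraicClosure K) (hx : x ^ 2 = algebraMap K (AlgebraicClosure K) (c : K)) : σ x = x := by
  have hp : 𝔓.IsPrime := h𝔓.1
  rcases sq_map_eqK (c : K) σ x hx with h | h
  · exact h
  exfalso
  set b : AlgebraicClosure K := algebraMap K (AlgebraicClosure K) (B : K) with hb
  set u : AlgebraicClosure K := algebraMap K (AlgebraicClosure K) (t : K) with hu
  have hcb : x ^ 2 = b ^ 2 + 4 * u := by
    rw [hx, hc, hb, hu]
    simp only [map_add, map_mul, map_pow, map_ofNat]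
  -- `θ = (x - b) / 2`
  have hθ : ((x - b) / 2) * ((x - b) / 2 + b) = u := by
    have : ((x - b) / 2) * ((x - b) / 2 + b) = (x ^ 2 - b ^ 2) / 4 := by ring
    rw [this, hcb]
    ring
  have hint : IsIntegral (𝓞 K) ((x - b) / 2) := by
    refine ⟨Polynomial.X ^ 2 + (Polynomial.C B * Polynomial.X - Polynomial.C t), ?_, ?_⟩
    · apply Polynomial.monic_X_pow_add
      refine lt_of_le_of_lt (Polynomial.degree_sub_le _ _) (max_lt ?_ ?_)
      · refine lt_of_le_of_lt (Polynomial.degree_C_mul_X_le B) ?_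
        norm_num
      · refine lt_of_le_of_lt Polynomial.degree_C_le ?_
        norm_num
    · have e1 : algebraMap (𝓞 K) (AlgebraicClosure K) B = b := rfl
      have e2 : algebraMap (𝓞 K) (AlgebraicClosure K) t = u := rfl
      simp only [Polynomial.eval₂_add, Polynomial.eval₂_sub, Polynomial.eval₂_mul,
        Polynomial.eval₂_pow, Polynomial.eval₂_X, Polynomial.eval₂_C, e1, e2]
      rw [← hθ]
      ring
  have hint2 : IsIntegral ℤ ((x - b) / 2) := isIntegral_trans _ hint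
  obtain ⟨a, ha⟩ : ∃ a : 𝓞 (AlgebraicClosure K), (a : AlgebraicClosure K) = (x - b) / 2 :=
    ⟨⟨(x - b) / 2, hint2⟩, rfl⟩
  have hat : a * (a + algebraMap (𝓞 K) (𝓞 (AlgebraicClosure K)) B) =
      algebraMap (𝓞 K) (𝓞 (AlgebraicClosure K)) t := by
    apply RingOfIntegers.ext
    have e1 : ((a * (a + algebraMap (𝓞 K) (𝓞 (AlgebraicClosure K)) B) : 𝓞 (AlgebraicClosure K)) :
      AlgebraicClosure K) = (a : AlgebraicClosure K) * ((a : AlgebraicClosure K) + b) := rfl
    rw [e1, ha, hθ]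
    rfl
  have hsa : galInt σ a = -(a + algebraMap (𝓞 K) (𝓞 (AlgebraicClosure K)) B) := by
    apply RingOfIntegers.ext
    have e1 : ((galInt σ a : 𝓞 (AlgebraicClosure K)) : AlgebraicClosure K) =
      σ (a : AlgebraicClosure K) := rfl
    have e2 : ((-(a + algebraMap (𝓞 K) (𝓞 (AlgebraicClosure K)) B) :
      𝓞 (AlgebraicClosure K)) : AlgebraicClosure K) = -((a : AlgebraicClosure K) + b) := rfl
    rw [e1, e2, ha, map_div₀, map_sub, h, map_ofNat, hb, AlgEquiv.commutes]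
    ring
  have h1 : a ∈ 𝔓 ↔ a + algebraMap (𝓞 K) (𝓞 (AlgebraicClosure K)) B ∈ 𝔓 := by
    rw [← neg_mem_iff (x := a + algebraMap (𝓞 K) (𝓞 (AlgebraicClosure K)) B), ← hsa]
    exact (hσ a).symm
  have h2 : ¬ (a ∈ 𝔓 ∧ a + algebraMap (𝓞 K) (𝓞 (AlgebraicClosure K)) B ∈ 𝔓) := by
    rintro ⟨h3, h4⟩
    apply hB
    rw [← above_mem h𝔓]
    have := sub_mem h4 h3
    rwa [add_sub_cancel_left] at this
  have h5 : a * (a + algebraMap (𝓞 K) (𝓞 (AlgebraicClosure K)) B) ∈ 𝔓 := by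
    rw [hat, above_mem h𝔓]
    exact ht
  rcases hp.mem_or_mem h5 with h3 | h3
  · exact h2 ⟨h3, h1.1 h3⟩
  · exact h2 ⟨h1.2 h3, h3⟩

omit [NumberField K] in
/-- An algebraic integer `c` of `K` congruent to the square of `B ∉ v` modulo the odd place `v` is a
square in the completion at `v`: the decomposition groups above `v` fix its square roots. -/
theorem fix_odd (v : HeightOneSpectrum (𝓞 K)) (h2 : (2 : 𝓞 K) ∉ v.asIdeal) (c B : 𝓞 K)
    (hB : B ∉ v.asIdeal) (hc : c - B ^ 2 ∈ v.asIdeal)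
    (𝔓 : Ideal (𝓞 (AlgebraicClosure K))) (h𝔓 : Above 𝔓 v)
    (σ : AlgebraicClosure K ≃ₐ[K] AlgebraicClosure K) (hσ : σ ∈ decompGrp K 𝔓)
    (x : AlgebraicClosure K) (hx : x ^ 2 = algebraMap K (AlgebraicClosure K) (c : K)) : σ x = x := by
  have hp : 𝔓.IsPrime := h𝔓.1
  rcases sq_map_eqK (c : K) σ x hx with h | h
  · exact h
  exfalso
  have hint : IsIntegral (𝓞 K) x := by
    refine ⟨Polynomial.X ^ 2 - Polynomial.C c, Polynomial.monic_X_pow_sub_C _ two_ne_zero, ?_⟩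
    rw [Polynomial.eval₂_sub, Polynomial.eval₂_pow, Polynomial.eval₂_X, Polynomial.eval₂_C, hx,
      sub_eq_zero]
    rfl
  obtain ⟨a, ha⟩ : ∃ a : 𝓞 (AlgebraicClosure K), (a : AlgebraicClosure K) = x :=
    ⟨⟨x, isIntegral_trans _ hint⟩, rfl⟩
  have h7 : a * a = algebraMap (𝓞 K) (𝓞 (AlgebraicClosure K)) c := by
    apply RingOfIntegers.ext
    have e1 : ((a * a : 𝓞 (AlgebraicClosure K)) : AlgebraicClosure K) =
      (a : AlgebraicClosure K) * a := rfl
    rw [e1, ha, ← sq, hx]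
    rfl
  -- one of `a - B`, `a + B` is in the ideal
  have hd : ∃ d : 𝓞 K, d ∉ v.asIdeal ∧ a - algebraMap (𝓞 K) (𝓞 (AlgebraicClosure K)) d ∈ 𝔓 := by
    have h3 : (a - algebraMap (𝓞 K) (𝓞 (AlgebraicClosure K)) B) *
        (a - algebraMap (𝓞 K) (𝓞 (AlgebraicClosure K)) (-B)) ∈ 𝔓 := by
      rw [← above_mem h𝔓, map_sub, map_pow, ← h7] at hc
      have h4 : (a - algebraMap (𝓞 K) (𝓞 (AlgebraicClosure K)) B) *
        (a - algebraMap (𝓞 K) (𝓞 (AlgebraicClosure K)) (-B)) =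
        a * a - algebraMap (𝓞 K) (𝓞 (AlgebraicClosure K)) B ^ 2 := by
        rw [map_neg]
        ring
      rw [h4]
      exact hc
    rcases hp.mem_or_mem h3 with h4 | h4
    · exact ⟨B, hB, h4⟩
    · exact ⟨-B, fun h => hB (neg_mem_iff.1 h), h4⟩
  obtain ⟨d, hd0, hd⟩ := hd
  have h5 : -a - algebraMap (𝓞 K) (𝓞 (AlgebraicClosure K)) d ∈ 𝔓 := by
    have h6 : galInt σ (a - algebraMap (𝓞 K) (𝓞 (AlgebraicClosure K)) d) =
        -a - algebraMap (𝓞 K) (𝓞 (AlgebraicClosure K)) d := by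
      apply RingOfIntegers.ext
      have e1 : ((galInt σ (a - algebraMap (𝓞 K) (𝓞 (AlgebraicClosure K)) d) :
          𝓞 (AlgebraicClosure K)) : AlgebraicClosure K) =
          σ ((a : AlgebraicClosure K) - algebraMap K (AlgebraicClosure K) (d : K)) := rfl
      have e2 : ((-a - algebraMap (𝓞 K) (𝓞 (AlgebraicClosure K)) d :
          𝓞 (AlgebraicClosure K)) : AlgebraicClosure K) =
          -(a : AlgebraicClosure K) - algebraMap K (AlgebraicClosure K) (d : K) := rfl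
      rw [e1, e2, map_sub, AlgEquiv.commutes, ha, h]
    rw [← h6]
    exact (hσ _).2 hd
  have h6 : algebraMap (𝓞 K) (𝓞 (AlgebraicClosure K)) (2 * d) ∈ 𝔓 := by
    have h8 := neg_mem (add_mem hd h5)
    have h9 : -(a - algebraMap (𝓞 K) (𝓞 (AlgebraicClosure K)) d +
        (-a - algebraMap (𝓞 K) (𝓞 (AlgebraicClosure K)) d)) =
        algebraMap (𝓞 K) (𝓞 (AlgebraicClosure K)) (2 * d) := by
      rw [map_mul, map_ofNat]
      ring
    rwa [h9] at h8
  rw [above_mem h𝔓] at h6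
  rcases v.isPrime.mem_or_mem h6 with h8 | h8
  · exact h2 h8
  · exact hd0 h8

end Pool.Agent.H.MP_ac3185_nt.KT
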