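import Pool.Agent.H.MP_ac3185_nt.helper16.K.RankL
import Pool.Agent.H.MP_ac3185_nt.helper16.K.Cyc

/-! The parity of the rank of a quadratic twist over `F`, relative to `L`. -/

set_option autoImplicit false

open CategoryTheory AlgebraicGeometry NumberField
open scoped MonObj TensorProduct

namespace Pool.Agent.H.MP_ac3185_nt.KT

open OE

universe u

variable {K : Type u} [Field K] [NumberField K]

/-- The general form: `S` is the set of the characters of `Gal(F/L)` with values `±1`, given by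
characters `ψ i` of the absolute Galois group of `K`. -/
theorem rankL_general (A B : Over (Spec (.of K))) [GrpObj A] [IsAbVar A] [GrpObj B] [IsAbVar B]
    (a : K) (hAB : IsTwistBy A B a) (L F : IntermediateField K (AlgebraicClosure K))
    [FiniteDimensional K F] [IsGalois K F] (hLF : L ≤ F)
    (hnil : ∃ N : Subgroup (relGal F L), ∃ _ : N.Normal, Odd (Nat.card N) ∧
      IsPGroup 2 (relGal F L ⧸ N))
    (S : Finset (relGal F L →* ℤˣ)) (hS : ∀ ε, ε ∈ S)
    (ψ : (relGal F L →* ℤˣ) → ((AlgebraicClosure K ≃ₐ[K] AlgebraicClosure K) →* ℤˣ))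
    (hψ : ∀ ε, ∀ (σ : AlgebraicClosure K ≃ₐ[K] AlgebraicClosure K) (hσ : σ ∈ L.fixingSubgroup),
      ε ⟨AlgEquiv.restrictNormalHom F σ, res_mem_relGal F L hLF σ hσ⟩ * chiK a σ = ψ ε σ)
    (hev : Even (∑ ε ∈ S, psiRankL A L (ψ ε))) : Even (Module.rank ℤ (Pts B F)) := by
  classical
  rcases lt_or_ge (Module.rank ℤ (Pts B F)) Cardinal.aleph0 with h1 | h1
  · obtain ⟨r, hr⟩ := Cardinal.lt_aleph0.1 h1
    rw [hr]
    apply gt_even_nat
    have hfinG : Finite (F ≃ₐ[K] F) := inferInstance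
    obtain ⟨M, _, _, ρ, hM, hε⟩ := exists_repL A B _ hAB L F hLF
    have hMr : Module.rank ℚ M = (r : Cardinal) := hM.trans hr
    have hfd : FiniteDimensional ℚ M := Module.rank_lt_aleph0_iff.1 (by
      rw [hMr]; exact Cardinal.natCast_lt_aleph0)
    have hMf : Module.finrank ℚ M = r := Module.finrank_eq_of_rank_eq hMr
    obtain ⟨N, hN, hodd, h2⟩ := hnil
    have hmod := finrank_two_nilpotent N hodd h2 ρ
    have hSu : (Function.support fun ε : relGal F L →* ℤˣ => Module.finrank ℚ (epsPart ρ ε)) ⊆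
        (S : Set (relGal F L →* ℤˣ)) := fun ε _ => hS ε
    rw [hMf, finsum_eq_sum_of_support_subset _ hSu] at hmod
    have hg : ∀ ε : relGal F L →* ℤˣ, Module.finrank ℚ (epsPart ρ ε) = psiRankL A L (ψ ε) := by
      intro ε
      have h6 := hε ε (ψ ε) (hψ ε)
      unfold psiRankL Module.finrank
      rw [h6]
    rw [Finset.sum_congr rfl fun ε _ => hg ε] at hmod
    rw [Nat.even_iff] at hev ⊢
    exact (show r % 2 = _ from hmod).trans hev
  · have h2 := gt_even_infinite _ h1 0
    rwa [Nat.cast_zero, add_zero] at h2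

/-- `F / L` of odd degree. -/
theorem rankL_odd (A B : Over (Spec (.of K))) [GrpObj A] [IsAbVar A] [GrpObj B] [IsAbVar B]
    (a : K) (hAB : IsTwistBy A B a) (L F : IntermediateField K (AlgebraicClosure K))
    [FiniteDimensional K F] [IsGalois K F] (hLF : L ≤ F) (hodd : Odd (Nat.card (relGal F L)))
    (hev : Even (psiRankL A L (chiK a))) : Even (Module.rank ℤ (Pts B F)) := by
  classical
  have hfinG : Finite (F ≃ₐ[K] F) := inferInstance
  have hone : ∀ ε : relGal F L →* ℤˣ, ε = 1 := by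
    intro ε
    apply MonoidHom.ext
    intro g
    exact char_odd ⊤ (by rw [Subgroup.card_top]; exact hodd) ε g trivial
  refine rankL_general A B a hAB L F hLF ?_ {1} (fun ε => by rw [Finset.mem_singleton]; exact hone ε)
    (fun _ => chiK a) (fun ε σ hσ => by rw [hone ε, MonoidHom.one_apply, one_mul]) ?_
  · refine ⟨⊤, inferInstance, by rw [Subgroup.card_top]; exact hodd, ?_⟩
    apply IsPGroup.of_card (n := 0)
    rw [pow_zero]
    exact Subgroup.index_top
  · rw [Finset.sum_singleton]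
    exact hev

/-- `Gal(F/L)` has cyclic Sylow `2`-subgroups, and `L(√c)` is the quadratic extension of `L` in `F`. -/
theorem rankL_cyc (A B : Over (Spec (.of K))) [GrpObj A] [IsAbVar A] [GrpObj B] [IsAbVar B]
    (a : K) (hAB : IsTwistBy A B a) (L F : IntermediateField K (AlgebraicClosure K))
    [FiniteDimensional K F] [IsGalois K F] (hLF : L ≤ F)
    (hcyc : ∀ P : Sylow 2 (relGal F L), IsCyclic P) (c : K) (s : AlgebraicClosure K) (hsF : s ∈ F)
    (hs : s ^ 2 = algebraMap K (AlgebraicClosure K) c) (hsL : s ∉ L)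
    (hev : Even (psiRankL A L (chiK a) + psiRankL A L (chiK c * chiK a))) :
    Even (Module.rank ℤ (Pts B F)) := by
  classical
  have hfinG : Finite (F ≃ₐ[K] F) := inferInstance
  obtain ⟨hnil, huniq⟩ := cyc_two hcyc
  obtain ⟨ε₀, hε₀⟩ := epsK F c s hsF hs
  let ε₁ : relGal F L →* ℤˣ := ε₀.comp (relGal F L).subtype
  have hε₁ : ∀ (σ : AlgebraicClosure K ≃ₐ[K] AlgebraicClosure K) (hσ : σ ∈ L.fixingSubgroup),
      ε₁ ⟨AlgEquiv.restrictNormalHom F σ, res_mem_relGal F L hLF σ hσ⟩ = chiK c σ :=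
    fun σ _ => hε₀ σ
  have hne : ε₁ ≠ 1 := by
    intro h
    apply hsL
    refine rank_mem_of_fixed L s fun σ hσ => ?_
    rw [← chiK_eq_one_iff c σ s hs, ← hε₁ σ hσ, h, MonoidHom.one_apply]
  have hall : ∀ ε : relGal F L →* ℤˣ, ε ∈ ({1, ε₁} : Finset (relGal F L →* ℤˣ)) := by
    intro ε
    rw [Finset.mem_insert, Finset.mem_singleton]
    by_cases h : ε = 1
    · exact Or.inl h
    · exact Or.inr (huniq ε ε₁ h hne)
  refine rankL_general A B a hAB L F hLF hnil {1, ε₁} hall
    (fun ε => if ε = 1 then chiK a else chiK c * chiK a) (fun ε σ hσ => ?_) ?_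
  · by_cases h : ε = 1
    · rw [if_pos h, h, MonoidHom.one_apply, one_mul]
    · rw [if_neg h, huniq ε ε₁ h hne, hε₁ σ hσ, MonoidHom.mul_apply]
  · rw [Finset.sum_pair hne.symm, if_pos rfl, if_neg hne]
    exact hev

end Pool.Agent.H.MP_ac3185_nt.KT
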