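import Pool.Agent.H.MP_ac3185_nt.helper16.K.Biq
import Pool.Agent.H.MP_ac3185_nt.helper16.K.Classes
import Pool.Agent.H.MP_ac3185_nt.helper16.K.Parity
import Pool.Agent.H.MP_ac3185_nt.W.Cx

/-! Finitely many classes of quadratic twists: the theorem. -/

set_option autoImplicit false

open CategoryTheory AlgebraicGeometry NumberField
open scoped MonObj

namespace Pool.Agent.H.MP_ac3185_nt.KT

open OE

universe u

variable {K : Type u} [Field K] [NumberField K]

/-- `F / K` is a finite Galois extension, `F` contains `L(√c)`, and the Sylow `2`-subgroups of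
`Gal(F/L)` are cyclic. -/
def CycAbove (L : IntermediateField K (AlgebraicClosure K)) (c : K)
    (F : IntermediateField K (AlgebraicClosure K)) : Prop :=
  FiniteDimensional K F ∧ IsGalois K F ∧ L ≤ F ∧
    (∃ s ∈ F, s ^ 2 = algebraMap K (AlgebraicClosure K) c) ∧
    ∀ P : Sylow 2 (relGal F L), IsCyclic P

/-- The global root number over `F` of the quadratic twist of `A` by `a` is `1`, and its rank over `F`
is even. (The rank is the cardinal number `Module.rank`; a cardinal `c` is even if `c = b + b` for some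
`b`, so infinite cardinals, which do not occur by the theorem of Mordell and Weil, are even.) -/
def GoodTwist (A : Over (Spec (.of K))) [GrpObj A] [IsAbVar A] (a : K)
    (F : IntermediateField K (AlgebraicClosure K)) : Prop :=
  ∀ (B : Over (Spec (.of K))) [GrpObj B] [IsAbVar B], IsTwistBy A B a →
    (∀ W : LocalSigns K, IsRootNumberFamily B W → ∀ g : ℕ, signOver W g F = 1) ∧
      Even (Module.rank ℤ (Pts B F))

/-- Two twists with ranks of the same parity over `L`, and root number `1`. -/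
theorem good_pair (A : Over (Spec (.of K))) [GrpObj A] [IsAbVar A]
    (L : IntermediateField K (AlgebraicClosure K)) (a b : Kˣ)
    (hab : Even (psiRankL A L (chiK (a : K)) + psiRankL A L (chiK (b : K))))
    (hr : ¬ ∃ s ∈ L, s ^ 2 = algebraMap K (AlgebraicClosure K) ((a * b : Kˣ) : K))
    (F : IntermediateField K (AlgebraicClosure K)) (hF : CycAbove L ((a * b : Kˣ) : K) F)
    (hw : ∀ (B : Over (Spec (.of K))) [GrpObj B] [IsAbVar B], IsTwistBy A B (a : K) →
      ∀ W : LocalSigns K, IsRootNumberFamily B W → ∀ g : ℕ, signOver W g F = 1) :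
    GoodTwist A (a : K) F := by
  obtain ⟨hfd, hgal, hLF, ⟨s, hsF, hs⟩, hcyc⟩ := hF
  intro B _ _ hAB
  refine ⟨hw B hAB, ?_⟩
  refine rankL_cyc A B (a : K) hAB L F hLF hcyc ((a * b : Kˣ) : K) s hsF hs
    (fun h => hr ⟨s, h, hs⟩) ?_
  have h1 : chiK ((a * b : Kˣ) : K) * chiK (a : K) = chiK (b : K) := by
    rw [Units.val_mul, chiK_mul a.ne_zero b.ne_zero]
    apply MonoidHom.ext
    intro σ
    rw [MonoidHom.mul_apply, MonoidHom.mul_apply, mul_right_comm, Int.units_mul_self, one_mul]
  rw [h1]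
  exact hab

/-- The theorem. -/
theorem finite_classes (A : Over (Spec (.of K))) [GrpObj A] [IsAbVar A]
    (L : IntermediateField K (AlgebraicClosure K)) [FiniteDimensional K L] [IsGalois K L] :
    ∃ (n : ℕ) (κ : Kˣ → Fin n), (EvenSplit L → n = 2) ∧ ∀ a b : Kˣ, κ a = κ b →
      (¬ ∃ s ∈ L, s ^ 2 = algebraMap K (AlgebraicClosure K) ((a * b : Kˣ) : K)) →
      ∀ F, CycAbove L ((a * b : Kˣ) : K) F → GoodTwist A (a : K) F ∧ GoodTwist A (b : K) F := by
  classical
  -- it is enough to treat `a`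
  have hsymm : ∀ (n : ℕ) (κ : Kˣ → Fin n), (∀ a b : Kˣ, κ a = κ b →
      (¬ ∃ s ∈ L, s ^ 2 = algebraMap K (AlgebraicClosure K) ((a * b : Kˣ) : K)) →
      ∀ F, CycAbove L ((a * b : Kˣ) : K) F → GoodTwist A (a : K) F) →
      ∀ a b : Kˣ, κ a = κ b →
      (¬ ∃ s ∈ L, s ^ 2 = algebraMap K (AlgebraicClosure K) ((a * b : Kˣ) : K)) →
      ∀ F, CycAbove L ((a * b : Kˣ) : K) F → GoodTwist A (a : K) F ∧ GoodTwist A (b : K) F := by
    intro n κ h a b hab hr F hF
    refine ⟨h a b hab hr F hF, h b a hab.symm ?_ F ?_⟩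
    · rwa [mul_comm b a]
    · rwa [mul_comm b a]
  have hpar : ∀ a b : Kˣ, decide (Even (psiRankL A L (chiK (a : K)))) =
      decide (Even (psiRankL A L (chiK (b : K)))) →
      Even (psiRankL A L (chiK (a : K)) + psiRankL A L (chiK (b : K))) := by
    intro a b h
    exact Nat.even_add.2 (by simpa using h)
  by_cases hL : EvenSplit L
  · let e : Bool ≃ Fin 2 := (Finite.equivFinOfCardEq (by simp))
    refine ⟨2, fun a => e (decide (Even (psiRankL A L (chiK (a : K))))), fun _ => rfl, hsymm 2 _ ?_⟩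
    intro a b hab hr F hF
    have hF' := hF
    obtain ⟨hfd, hgal, hLF, -, -⟩ := hF'
    refine good_pair A L a b (hpar a b (e.injective hab)) hr F hF fun B _ _ _ W hW g => ?_
    exact sign_evenSplit F (evenSplit_up L F hLF hL) W ⟨hW.sign, hW.almost, hW.transport⟩ g
  · obtain ⟨N, hN, hgood⟩ := gc_good A
    obtain ⟨C, hC, κ, hκ⟩ := exists_classes (K := K) (m := 2 * N) (mul_ne_zero two_ne_zero hN)
    let e := Finite.equivFin (C × Bool)
    refine ⟨Nat.card (C × Bool), fun a => e (κ a, decide (Even (psiRankL A L (chiK (a : K))))),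
      fun h => absurd h hL, hsymm _ _ ?_⟩
    intro a b hab hr F hF
    have hab' := e.injective hab
    rw [Prod.mk.injEq] at hab'
    have hF' := hF
    obtain ⟨hfd, hgal, hLF, ⟨s, hsF, hs⟩, -⟩ := hF'
    refine good_pair A L a b (hpar a b hab'.2) hr F hF fun B _ _ hAB W hW g => ?_
    obtain ⟨hloc, hpos⟩ := hκ a b hab'.1
    refine QF.root_quad A B hgood (a : K) a.ne_zero hAB W hW g F ((a * b : Kˣ) : K)
      (a * b).ne_zero s hsF hs ?_ hpos hloc
    intro y hy
    exact hr ⟨algebraMap K (AlgebraicClosure K) y, L.algebraMap_mem y, by rw [← map_pow, hy]⟩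

end Pool.Agent.H.MP_ac3185_nt.KT
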