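import Pool.Agent.H.MP_ac3185_nt.O42.Rank
import Pool.Agent.H.MP_ac3185_nt.R.PlA

/-! The rank of a quadratic twist over a Galois extension `F` of `K`, relative to a field `L`
between `K` and `F`. -/

set_option autoImplicit false

open CategoryTheory AlgebraicGeometry NumberField
open scoped MonObj TensorProduct

namespace Pool.Agent.H.MP_ac3185_nt.KT

open OE

universe u

variable {K : Type u} [Field K] [NumberField K]

/-- The points of `A` over the algebraic closure on which `Gal(Kbar/L)` acts through the character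
`ψ`. -/
noncomputable def psiPtsL (A : Over (Spec (.of K))) [GrpObj A] [IsAbVar A]
    (L : IntermediateField K (AlgebraicClosure K))
    (ψ : (AlgebraicClosure K ≃ₐ[K] AlgebraicClosure K) →* ℤˣ) :
    AddSubgroup (Pts A (AlgebraicClosure K)) where
  carrier := {x | ∀ σ ∈ L.fixingSubgroup, galHom A σ x = (ψ σ : ℤ) • x}
  zero_mem' := fun σ _ => by rw [map_zero, smul_zero]
  add_mem' := fun {x y} hx hy σ hσ => by rw [map_add, hx σ hσ, hy σ hσ, smul_add]
  neg_mem' := fun {x} hx σ hσ => by rw [map_neg, hx σ hσ, smul_neg]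

/-- The rank of these points. -/
noncomputable def psiRankL (A : Over (Spec (.of K))) [GrpObj A] [IsAbVar A]
    (L : IntermediateField K (AlgebraicClosure K))
    (ψ : (AlgebraicClosure K ≃ₐ[K] AlgebraicClosure K) →* ℤˣ) : ℕ :=
  Module.finrank ℤ (psiPtsL A L ψ)

/-- An automorphism which fixes `L` restricts to an element of `Gal(F/L)`. -/
theorem res_mem_relGal (F L : IntermediateField K (AlgebraicClosure K)) [IsGalois K F]
    (hL : L ≤ F) (σ : AlgebraicClosure K ≃ₐ[K] AlgebraicClosure K) (hσ : σ ∈ L.fixingSubgroup) :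
    AlgEquiv.restrictNormalHom F σ ∈ relGal F L := by
  rw [← map_fixingSubgroup F L hL]
  exact Subgroup.mem_map_of_mem _ hσ

/-- The representation `ℚ ⊗ B(F)` of `Gal(F/L)` for a quadratic twist `B` of `A`: the dimension of the
part belonging to a quadratic character is the rank of a part of `A(Kbar)`. -/
theorem exists_repL (A B : Over (Spec (.of K))) [GrpObj A] [IsAbVar A] [GrpObj B] [IsAbVar B]
    (e : K) (hAB : IsTwistBy A B e) (L F : IntermediateField K (AlgebraicClosure K))
    [FiniteDimensional K F] [IsGalois K F] (hLF : L ≤ F) :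
    ∃ (M : Type u) (_ : AddCommGroup M) (_ : Module ℚ M) (ρ : Representation ℚ (relGal F L) M),
      Module.rank ℚ M = Module.rank ℤ (Pts B F) ∧
      ∀ (ε : relGal F L →* ℤˣ) (ψ : (AlgebraicClosure K ≃ₐ[K] AlgebraicClosure K) →* ℤˣ),
        (∀ (σ : AlgebraicClosure K ≃ₐ[K] AlgebraicClosure K) (hσ : σ ∈ L.fixingSubgroup),
          ε ⟨AlgEquiv.restrictNormalHom F σ, res_mem_relGal F L hLF σ hσ⟩ * chiK e σ = ψ σ) →
        Module.rank ℚ (epsPart ρ ε) = Module.rank ℤ (psiPtsL A L ψ) := by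
  have hfin : Finite (F ≃ₐ[K] F) := inferInstance
  let φB : relGal F L → Pts B F →+ Pts B F := fun g => galHom B (g : F ≃ₐ[K] F)
  have hB1 : φB 1 = AddMonoidHom.id (Pts B F) := ptsb_galHom_one B
  have hBm : ∀ a b : relGal F L, φB (a * b) = (φB a).comp (φB b) := fun a b =>
    ptsb_galHom_mul B (a : F ≃ₐ[K] F) (b : F ≃ₐ[K] F)
  refine ⟨ℚ ⊗[ℤ] Pts B F, inferInstance, inferInstance,
    ptsb_rep φB hB1 hBm, ptsb_rank _, ?_⟩
  intro ε ψ hε
  obtain ⟨φ, hφ⟩ := hAB
  obtain ⟨j, hj, hj2, hj3⟩ := pts_descent_closure B F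
  have htw := epsK_twist A B e φ hφ
  have hres : ∀ (σ : AlgebraicClosure K ≃ₐ[K] AlgebraicClosure K) (x : F),
      σ (x : AlgebraicClosure K) = ((AlgEquiv.restrictNormalHom F σ) x : AlgebraicClosure K) :=
    fun σ x => (AlgEquiv.restrictNormal_commutes σ F x).symm
  have hsurj : ∀ g : relGal F L, ∃ σ ∈ L.fixingSubgroup,
      AlgEquiv.restrictNormalHom F σ = (g : F ≃ₐ[K] F) := by
    intro g
    have hg : (g : F ≃ₐ[K] F) ∈ L.fixingSubgroup.map (AlgEquiv.restrictNormalHom F) := by
      rw [map_fixingSubgroup F L hLF]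
      exact g.2
    exact Subgroup.mem_map.1 hg
  -- the action on the points coming from `psiPtsL`
  have hact : ∀ x ∈ psiPtsL A L ψ, ∀ (σ : AlgebraicClosure K ≃ₐ[K] AlgebraicClosure K)
      (hσ : σ ∈ L.fixingSubgroup), galHom B σ (φ x) =
        (ε ⟨AlgEquiv.restrictNormalHom F σ, res_mem_relGal F L hLF σ hσ⟩ : ℤ) • φ x := by
    intro x hx σ hσ
    have h1 := htw σ x
    have h2 : galHom A σ x = (ψ σ : ℤ) • x := hx σ hσ
    rw [h2, map_zsmul] at h1
    have h3 : (chiK e σ : ℤ) • (ψ σ : ℤ) • φ x = galHom B σ (φ x) := by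
      rw [h1, ueps_smul_smul]
    have h4 : (chiK e σ : ℤ) * (ψ σ : ℤ) =
        (ε ⟨AlgEquiv.restrictNormalHom F σ, res_mem_relGal F L hLF σ hσ⟩ : ℤ) := by
      rw [← hε σ hσ, Units.val_mul, mul_comm, mul_assoc, ueps_unit_sq, mul_one]
    rw [← h3, smul_smul, h4]
  have hmem : ∀ x : psiPtsL A L ψ, φ (x : Pts A (AlgebraicClosure K)) ∈ j.range := by
    intro x
    obtain ⟨y, hy⟩ := (hj3 (φ (x : Pts A (AlgebraicClosure K)))).2 (by
      intro σ hσ
      have hσL : σ ∈ L.fixingSubgroup := IntermediateField.fixingSubgroup_antitone hLF hσ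
      rw [hact x x.2 σ hσL]
      have h1 : (⟨AlgEquiv.restrictNormalHom F σ, res_mem_relGal F L hLF σ hσL⟩ : relGal F L) = 1 := by
        apply Subtype.ext
        apply AlgEquiv.ext
        intro z
        apply Subtype.ext
        show ((AlgEquiv.restrictNormalHom F σ) z : AlgebraicClosure K) = _
        rw [← hres σ z]
        exact (IntermediateField.mem_fixingSubgroup_iff _ _).1 hσ z z.2
      rw [h1, map_one, Units.val_one, one_smul])
    exact ⟨y, hy⟩
  let j' : psiPtsL A L ψ →+ Pts B F :=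
    (AddMonoidHom.ofInjective hj).symm.toAddMonoidHom.comp
      (((φ.toAddMonoidHom).comp (psiPtsL A L ψ).subtype).codRestrict j.range hmem)
  have hj' : ∀ x : psiPtsL A L ψ, j (j' x) = φ (x : Pts A (AlgebraicClosure K)) := by
    intro x
    exact AddMonoidHom.apply_ofInjective_symm hj
      (((φ.toAddMonoidHom).comp (psiPtsL A L ψ).subtype).codRestrict j.range hmem x)
  refine eps_main φB hB1 hBm ε j' ?_ ?_
  · intro x x' h
    have h1 : φ (x : Pts A (AlgebraicClosure K)) = φ (x' : Pts A (AlgebraicClosure K)) := by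
      rw [← hj', ← hj', h]
    exact Subtype.ext (φ.injective h1)
  · intro y
    constructor
    · rintro ⟨x, rfl⟩ g
      obtain ⟨σ, hσL, hσ⟩ := hsurj g
      have hg : (⟨AlgEquiv.restrictNormalHom F σ, res_mem_relGal F L hLF σ hσL⟩ : relGal F L) = g :=
        Subtype.ext hσ
      apply hj
      show j (galHom B (g : F ≃ₐ[K] F) (j' x)) = _
      rw [hj2 σ (g : F ≃ₐ[K] F) (fun z => by rw [hres σ z, hσ]), hj', hact x x.2 σ hσL, hg,
        map_zsmul, hj']
    · intro hy
      have hz : φ.symm (j y) ∈ psiPtsL A L ψ := by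
        intro σ hσL
        have hy' : galHom B (AlgEquiv.restrictNormalHom F σ) y =
            (ε ⟨AlgEquiv.restrictNormalHom F σ, res_mem_relGal F L hLF σ hσL⟩ : ℤ) • y :=
          hy ⟨AlgEquiv.restrictNormalHom F σ, res_mem_relGal F L hLF σ hσL⟩
        apply φ.injective
        rw [htw σ, AddEquiv.apply_symm_apply,
          ← hj2 σ (AlgEquiv.restrictNormalHom F σ) (hres σ) y, hy', map_zsmul, map_zsmul,
          AddEquiv.apply_symm_apply, smul_smul, ← hε σ hσL, Units.val_mul, mul_comm]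
      refine ⟨⟨φ.symm (j y), hz⟩, ?_⟩
      apply hj
      rw [hj']
      exact AddEquiv.apply_symm_apply φ (j y)

end Pool.Agent.H.MP_ac3185_nt.KT
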