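import Pool.Agent.H.MP_ac3185_nt.helper16.K.Sign

/-! Galois extensions in which every place splits into an even number of places. -/

set_option autoImplicit false

open CategoryTheory AlgebraicGeometry NumberField IsDedekindDomain
open scoped MonObj

namespace Pool.Agent.H.MP_ac3185_nt.KT

open OE

universe u

variable {K : Type u} [Field K] [NumberField K]

/-- The degree of `L / K` is divisible by `4`, and every finite place of `K` has an even number of
places of `L` above it. -/
def EvenSplit (L : IntermediateField K (AlgebraicClosure K)) : Prop :=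
  4 ∣ Module.finrank K L ∧ ∀ v : HeightOneSpectrum (𝓞 K),
    Even (Nat.card {w : HeightOneSpectrum (𝓞 L) // Divides L w v})

/-- The number of places above `v` is the index of the decomposition group. -/
theorem card_places (F : IntermediateField K (AlgebraicClosure K)) [FiniteDimensional K F]
    [IsGalois K F] (v : HeightOneSpectrum (𝓞 K)) (𝔓 : Ideal (𝓞 (AlgebraicClosure K)))
    (h𝔓 : Above 𝔓 v) :
    Nat.card {w : HeightOneSpectrum (𝓞 F) // Divides F w v} =
      ((decompGrp K 𝔓).map (AlgEquiv.restrictNormalHom F)).index := by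
  obtain ⟨T, hT1, hT2, -⟩ := exists_T F F le_rfl v 𝔓 h𝔓
  set D := (decompGrp K 𝔓).map (AlgEquiv.restrictNormalHom F) with hD
  have hlift : ∀ a b : F ≃ₐ[K] F, (QuotientGroup.leftRel D) a b → T a = T b := by
    intro a b hab
    rw [QuotientGroup.leftRel_apply] at hab
    rw [hT2]
    exact ⟨1, Subgroup.one_mem _, ⟨a⁻¹ * b, hab⟩, by simp⟩
  let f : ((F ≃ₐ[K] F) ⧸ D) → {w : HeightOneSpectrum (𝓞 F) // Divides F w v} :=
    fun z => Quotient.lift T hlift z
  have hf : Function.Bijective f := by
    constructor
    · intro a b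
      induction a using Quotient.inductionOn with
      | _ a =>
        induction b using Quotient.inductionOn with
        | _ b =>
          intro hab
          have h1 : T a = T b := hab
          rw [hT2] at h1
          obtain ⟨h, hh, d, hd⟩ := h1
          have hh1 : h = 1 := by
            have h3 : h ∈ relGal F F := hh
            apply AlgEquiv.ext
            intro y
            exact h3 y y.2
          apply Quotient.sound
          show (QuotientGroup.leftRel D) a b
          rw [QuotientGroup.leftRel_apply, hd, hh1]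
          have : a⁻¹ * (1 * a * (d : F ≃ₐ[K] F)) = d := by group
          rw [this]
          exact d.2
    · intro w
      obtain ⟨g, hg⟩ := hT1 w
      exact ⟨Quotient.mk _ g, hg⟩
  rw [← Nat.card_congr (Equiv.ofBijective f hf)]
  rfl

theorem index_restrict (F : IntermediateField K (AlgebraicClosure K)) [FiniteDimensional K F]
    [IsGalois K F] (D : Subgroup (AlgebraicClosure K ≃ₐ[K] AlgebraicClosure K)) :
    (D.map (AlgEquiv.restrictNormalHom F)).index = (D ⊔ F.fixingSubgroup).index := by
  rw [Subgroup.index_map, IntermediateField.restrictNormalHom_ker,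
    MonoidHom.range_eq_top.2 (AlgEquiv.restrictNormalHom_surjective (F := K) (K₁ := F)
      (AlgebraicClosure K)), Subgroup.index_top, mul_one]

/-- The property passes to larger Galois extensions. -/
theorem even_places_up (L F : IntermediateField K (AlgebraicClosure K)) [FiniteDimensional K L]
    [IsGalois K L] [FiniteDimensional K F] [IsGalois K F] (hLF : L ≤ F)
    (v : HeightOneSpectrum (𝓞 K))
    (h : Even (Nat.card {w : HeightOneSpectrum (𝓞 L) // Divides L w v})) :
    Even (Nat.card {w : HeightOneSpectrum (𝓞 F) // Divides F w v}) := by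
  obtain ⟨𝔓, h𝔓⟩ := exists_above v
  rw [card_places L v 𝔓 h𝔓, index_restrict] at h
  rw [card_places F v 𝔓 h𝔓, index_restrict]
  have hle : decompGrp K 𝔓 ⊔ F.fixingSubgroup ≤ decompGrp K 𝔓 ⊔ L.fixingSubgroup :=
    sup_le_sup_left (IntermediateField.fixingSubgroup_antitone hLF) _
  have hdvd := Subgroup.index_dvd_of_le hle
  rw [even_iff_two_dvd] at h ⊢
  exact h.trans hdvd

theorem evenSplit_up (L F : IntermediateField K (AlgebraicClosure K)) [FiniteDimensional K L]
    [IsGalois K L] [FiniteDimensional K F] [IsGalois K F] (hLF : L ≤ F) (hL : EvenSplit L) :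
    EvenSplit F := by
  refine ⟨hL.1.trans ?_, fun v => even_places_up L F hLF v (hL.2 v)⟩
  let _ : Algebra L F := (IntermediateField.inclusion hLF).toRingHom.toAlgebra
  have : IsScalarTower K L F := IsScalarTower.of_algebraMap_eq fun _ => rfl
  exact ⟨Module.finrank L F, (Module.finrank_mul_finrank K L F).symm⟩

/-- The global root number over such an extension is `1`. -/
theorem sign_evenSplit (F : IntermediateField K (AlgebraicClosure K)) [FiniteDimensional K F]
    [IsGalois K F] (hF : EvenSplit F) (W : LocalSigns K) (hW : IsSignFamily W) (g : ℕ) :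
    signOver W g F = 1 := by
  unfold signOver
  rw [((even_infinite F hF.1).mul_left g).neg_one_pow, one_mul,
    (finprod_places F (W F) (hW.almost F)).2]
  rw [finprod_congr (g := fun _ => (1 : ℤ)), finprod_one]
  intro v
  obtain ⟨𝔓, h𝔓⟩ := exists_above v
  obtain ⟨T', hT', -⟩ := exists_T F F le_rfl v 𝔓 h𝔓
  have hfin : Finite {w : HeightOneSpectrum (𝓞 F) // Divides F w v} :=
    Finite.of_surjective T' hT'
  exact root_prod_even (hF.2 v) _ (fun w => hW.sign F w.1)
    (fun w w' => hW.transport F v w.1 w'.1 w.2 w'.2)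

/-- The degree of a Galois extension which contains the square roots of two independent elements. -/
theorem four_dvd_of_roots (L : IntermediateField K (AlgebraicClosure K)) [FiniteDimensional K L]
    [IsGalois K L] (x y : K) (hx0 : x ≠ 0) (hy0 : y ≠ 0) (hx : ∀ z : K, z ^ 2 ≠ x)
    (hy : ∀ z : K, z ^ 2 ≠ y) (hxy : ∀ z : K, z ^ 2 ≠ x * y) (s t : AlgebraicClosure K)
    (hsL : s ∈ L) (htL : t ∈ L) (hs : s ^ 2 = algebraMap K (AlgebraicClosure K) x)
    (ht : t ^ 2 = algebraMap K (AlgebraicClosure K) y) : 4 ∣ Module.finrank K L := by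
  obtain ⟨ε₀, hε₀⟩ := epsK L x s hsL hs
  obtain ⟨ε₁, hε₁⟩ := epsK L y t htL ht
  have hval : ∀ (ε : (L ≃ₐ[K] L) →* ℤˣ) (a : K),
      (∀ σ, ε (AlgEquiv.restrictNormalHom L σ) = chiK a σ) → ε = 1 → ∃ y : K, y ^ 2 = a := by
    intro ε a h3 h4
    apply isSquare_of_chiK
    apply MonoidHom.ext
    intro σ
    rw [← h3 σ, h4]
    rfl
  rw [← IsGalois.card_aut_eq_finrank]
  refine four_dvd_card ε₀ ε₁ ?_ ?_ ?_
  · intro h
    obtain ⟨z, hz⟩ := hval ε₀ _ hε₀ h
    exact hx z hz
  · intro h
    obtain ⟨z, hz⟩ := hval ε₁ _ hε₁ h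
    exact hy z hz
  · intro h
    have h6 : chiK (x * y) = 1 := by
      rw [chiK_mul hx0 hy0]
      apply MonoidHom.ext
      intro σ
      rw [MonoidHom.mul_apply, ← hε₀ σ, ← hε₁ σ, h, Int.units_mul_self]
      rfl
    obtain ⟨z, hz⟩ := isSquare_of_chiK h6
    exact hxy z hz

end Pool.Agent.H.MP_ac3185_nt.KT
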